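import Pool.Agent.TIFC.ENG

/-!
# Local constancy of coboundaries
-/

set_option autoImplicit false

namespace Pool.Agent.TIFC

open Pool.Agent.TBR

universe u v w

section

variable {k Ω : Type u} [Field k] [Field Ω] [Algebra k Ω]
  {A E : IntermediateField k Ω} {N : Subgroup (Ω ≃ₐ[k] Ω)}

/-- the elements of `E` depend only on the restriction to `A` -/
theorem coef' (hS : Sit A E N) (x : Ω) (hx : x ∈ E) : ∃ S : Finset Ω, (S : Set Ω) ⊆ A ∧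
    ∀ σ ∈ N, ∀ τ ∈ N, Ag (S : Set Ω) σ τ → σ x = τ x := by
  refine cpt N hS.orb hS.clo (A : Set Ω) (fun σ : Ω ≃ₐ[k] Ω => σ x) ⟨{x}, Set.subset_univ _, ?_⟩ ?_
  · intro σ _ τ _ h
    exact h x (by simp)
  · intro σ hσ τ hτ h
    have h1 : σ⁻¹ * τ ∈ N ⊓ Fx k (A : Set Ω) := by
      refine ⟨N.mul_mem (N.inv_mem hσ) hτ, fun y hy => ?_⟩
      show σ⁻¹ (τ y) = y
      rw [← h y hy]
      exact σ.symm_apply_apply y
    rw [hS.lin] at h1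
    have h2 : σ⁻¹ (τ x) = x := h1 x hx
    calc σ x = σ (σ⁻¹ (τ x)) := by rw [h2]
      _ = τ x := σ.apply_symm_apply _

theorem coef_fin (hS : Sit A E N) (T : Set Ω) (hT : T.Finite) (hTE : T ⊆ E) :
    ∃ S : Finset Ω, (S : Set Ω) ⊆ A ∧
      ∀ σ ∈ N, ∀ τ ∈ N, Ag (S : Set Ω) σ τ → ∀ x ∈ T, σ x = τ x := by
  classical
  have h1 : ∀ y : Ω, ∃ S : Finset Ω, (y ∈ T → (S : Set Ω) ⊆ A) ∧ (y ∈ T →
      ∀ σ ∈ N, ∀ τ ∈ N, Ag (S : Set Ω) σ τ → σ y = τ y) := by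
    intro y
    by_cases hy : y ∈ T
    · obtain ⟨S, h1, h2⟩ := coef' hS y (hTE hy)
      exact ⟨S, fun _ => h1, fun _ => h2⟩
    · exact ⟨∅, fun h => absurd h hy, fun h => absurd h hy⟩
  choose S hS1 hS2 using h1
  refine ⟨hT.toFinset.biUnion S, ?_, ?_⟩
  · intro z hz
    simp only [Finset.coe_biUnion, Set.mem_iUnion, Finset.mem_coe, Set.Finite.mem_toFinset] at hz
    obtain ⟨y, hy, hz⟩ := hz
    exact hS1 y hy hz
  · intro σ hσ τ hτ h y hy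
    refine hS2 y hy σ hσ τ hτ fun z hz => h z ?_
    simp only [Finset.coe_biUnion, Set.mem_iUnion, Finset.mem_coe, Set.Finite.mem_toFinset]
    exact ⟨y, hy, hz⟩

/-- the coboundary of a 1-cochain with values in `E` -/
theorem lo2_cob (hS : Sit A E N) (g : (Ω ≃ₐ[k] Ω) → Ωˣ) (hg : Lo1 N (A : Set Ω) g)
    (hgE : ∀ σ ∈ N, (g σ : Ω) ∈ E) :
    Lo2 N (A : Set Ω) (fun σ τ => g σ * σ • g τ * (g (σ * τ))⁻¹) := by
  classical
  obtain ⟨S, hSA, hSg⟩ := hg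
  have hfin : {m : Ωˣ | ∃ σ ∈ N, g σ = m}.Finite :=
    finite_range N S (hS.orb.mono le_rfl (Set.subset_univ _)) g hSg
  have hfin' : {m : Ω | ∃ σ ∈ N, (g σ : Ω) = m}.Finite := by
    refine (hfin.image (fun u : Ωˣ => (u : Ω))).subset ?_
    rintro m ⟨σ, hσ, rfl⟩
    exact ⟨g σ, ⟨σ, hσ, rfl⟩, rfl⟩
  obtain ⟨S', hS'A, hS'⟩ := coef_fin hS _ hfin' (by
    rintro m ⟨σ, hσ, rfl⟩
    exact hgE σ hσ)
  obtain ⟨R, hSR, hRA, hR⟩ := exists_stable N (A : Set Ω)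
    (fun σ hσ y hy => (hS.stab σ hσ y).2 hy) (hS.orb.mono le_rfl (Set.subset_univ _))
    (S ∪ S') (by
      rw [Finset.coe_union]
      exact Set.union_subset hSA hS'A)
  have h1 : (S : Set Ω) ⊆ R := fun z hz => hSR (by simp [Finset.mem_coe.1 hz])
  have h2 : (S' : Set Ω) ⊆ R := fun z hz => hSR (by simp [Finset.mem_coe.1 hz])
  refine ⟨R, hRA, ?_⟩
  intro σ hσ σ' hσ' τ hτ τ' hτ' h h'
  have e1 : g σ = g σ' := hSg σ hσ σ' hσ' (h.mono h1)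
  have e2 : g τ = g τ' := hSg τ hτ τ' hτ' (h'.mono h1)
  have e3 : g (σ * τ) = g (σ' * τ') := by
    refine hSg _ (N.mul_mem hσ hτ) _ (N.mul_mem hσ' hτ') (Ag.mono h1 ?_)
    exact h.mul h' fun x hx => hR τ hτ x hx
  have e4 : σ • g τ' = σ' • g τ' := by
    apply Units.ext
    exact hS' σ hσ σ' hσ' (h.mono h2) _ ⟨τ', hτ', rfl⟩
  show g σ * σ • g τ * (g (σ * τ))⁻¹ = g σ' * σ' • g τ' * (g (σ' * τ'))⁻¹
  rw [e1, e2, e3, e4]

theorem lo2_mul {D : Subgroup (Ω ≃ₐ[k] Ω)} {T : Set Ω} {a a' : (Ω ≃ₐ[k] Ω) → (Ω ≃ₐ[k] Ω) → Ωˣ}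
    (h : Lo2 D T a) (h' : Lo2 D T a') : Lo2 D T (fun σ τ => a σ τ * a' σ τ) := by
  classical
  obtain ⟨S, h1, h2⟩ := h
  obtain ⟨S', h1', h2'⟩ := h'
  refine ⟨S ∪ S', ?_, ?_⟩
  · rw [Finset.coe_union]
    exact Set.union_subset h1 h1'
  · intro σ hσ σ' hσ' τ hτ τ' hτ' ha hb
    have e1 : (S : Set Ω) ⊆ ((S ∪ S' : Finset Ω) : Set Ω) := by
      rw [Finset.coe_union]; exact Set.subset_union_left
    have e2 : (S' : Set Ω) ⊆ ((S ∪ S' : Finset Ω) : Set Ω) := by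
      rw [Finset.coe_union]; exact Set.subset_union_right
    show a σ τ * a' σ τ = a σ' τ' * a' σ' τ'
    rw [h2 σ hσ σ' hσ' τ hτ τ' hτ' (ha.mono e1) (hb.mono e1),
      h2' σ hσ σ' hσ' τ hτ τ' hτ' (ha.mono e2) (hb.mono e2)]

theorem lo2_map {D : Subgroup (Ω ≃ₐ[k] Ω)} {T : Set Ω} {M M' : Type*}
    {a : (Ω ≃ₐ[k] Ω) → (Ω ≃ₐ[k] Ω) → M} (h : Lo2 D T a) (f : M → M') :
    Lo2 D T (fun σ τ => f (a σ τ)) := by
  obtain ⟨S, h1, h2⟩ := h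
  exact ⟨S, h1, fun σ hσ σ' hσ' τ hτ τ' hτ' ha hb => congrArg f (h2 σ hσ σ' hσ' τ hτ τ' hτ' ha hb)⟩

theorem lo1_map {D : Subgroup (Ω ≃ₐ[k] Ω)} {T : Set Ω} {M M' : Type*}
    {a : (Ω ≃ₐ[k] Ω) → M} (h : Lo1 D T a) (f : M → M') :
    Lo1 D T (fun σ => f (a σ)) := by
  obtain ⟨S, h1, h2⟩ := h
  exact ⟨S, h1, fun σ hσ τ hτ ha => congrArg f (h2 σ hσ τ hτ ha)⟩

end

section

variable {k Ω : Type u} [Field k] [Field Ω] [Algebra k Ω] {X : Type v} {C : Type w} [CommGroup C]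
  {A E : IntermediateField k Ω} {N : Subgroup (Ω ≃ₐ[k] Ω)}
  {xa : (Ω ≃ₐ[k] Ω) → X → X} {ca : (Ω ≃ₐ[k] Ω) → C →* C} {dv : Ωˣ → X →₀ ℤ}
  {cD : (X →₀ ℤ) → C}

theorem Cv.dv_one (hC : Cv A E N xa ca dv cD) : dv 1 = 0 :=
  (hC.dv_zero 1 (by rw [Units.val_one]; exact E.one_mem)).2 (by rw [Units.val_one]; exact A.one_mem)

theorem Cv.dv_inv (hC : Cv A E N xa ca dv cD) (e : Ωˣ) (he : (e : Ω) ∈ E) : dv e⁻¹ = - dv e := by
  have h1 := hC.dv_mul e e⁻¹ he (by rw [Units.val_inv_eq_inv_val]; exact E.inv_mem he)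
  rw [mul_inv_cancel, hC.dv_one] at h1
  exact (neg_eq_of_add_eq_zero_right h1.symm).symm

theorem Cv.dv_pow (hC : Cv A E N xa ca dv cD) (e : Ωˣ) (he : (e : Ω) ∈ E) (n : ℕ) :
    dv (e ^ n) = n • dv e := by
  induction n with
  | zero => rw [pow_zero, zero_smul, hC.dv_one]
  | succ n ih =>
    rw [pow_succ, hC.dv_mul _ _ (by rw [Units.val_pow_eq_pow_val]; exact pow_mem he n) he, ih,
      succ_nsmul]

theorem Cv.dv_zpow (hC : Cv A E N xa ca dv cD) (e : Ωˣ) (he : (e : Ω) ∈ E) (n : ℤ) :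
    dv (e ^ n) = n • dv e := by
  cases n with
  | ofNat n => rw [Int.ofNat_eq_natCast, zpow_natCast, hC.dv_pow e he, natCast_zsmul]
  | negSucc n =>
    rw [zpow_negSucc, hC.dv_inv _ (by rw [Units.val_pow_eq_pow_val]; exact pow_mem he _),
      hC.dv_pow e he, negSucc_zsmul]

theorem Cv.cD_zero (hC : Cv A E N xa ca dv cD) : cD 0 = 1 := by
  have h := hC.cD_add 0 0
  rw [add_zero] at h
  exact (mul_eq_left.1 h.symm)

theorem Cv.cD_neg (hC : Cv A E N xa ca dv cD) (D : X →₀ ℤ) : cD (-D) = (cD D)⁻¹ := by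
  have h := hC.cD_add D (-D)
  rw [add_neg_cancel, hC.cD_zero] at h
  exact (inv_eq_of_mul_eq_one_right h.symm).symm

theorem Cv.cD_nsmul (hC : Cv A E N xa ca dv cD) (n : ℕ) (D : X →₀ ℤ) : cD (n • D) = cD D ^ n := by
  induction n with
  | zero => rw [zero_smul, pow_zero, hC.cD_zero]
  | succ n ih => rw [succ_nsmul, hC.cD_add, ih, pow_succ]

theorem Cv.cD_zsmul (hC : Cv A E N xa ca dv cD) (n : ℤ) (D : X →₀ ℤ) : cD (n • D) = cD D ^ n := by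
  cases n with
  | ofNat n => rw [Int.ofNat_eq_natCast, zpow_natCast, natCast_zsmul, hC.cD_nsmul]
  | negSucc n => rw [zpow_negSucc, negSucc_zsmul, hC.cD_neg, hC.cD_nsmul]

theorem Cv.inj (hC : Cv A E N xa ca dv cD) {σ : Ω ≃ₐ[k] Ω} (hσ : σ ∈ N) :
    Function.Injective (xa σ) := by
  intro x y h
  have h1 := hC.xa_mul σ⁻¹ (N.inv_mem hσ) σ hσ x
  have h2 := hC.xa_mul σ⁻¹ (N.inv_mem hσ) σ hσ y
  rw [inv_mul_cancel, hC.xa_one] at h1 h2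
  rw [h1, h2, h]

theorem Cv.inv_act (hC : Cv A E N xa ca dv cD) {σ : Ω ≃ₐ[k] Ω} (hσ : σ ∈ N) (x : X) :
    xa σ (xa σ⁻¹ x) = x := by
  have h1 := hC.xa_mul σ hσ σ⁻¹ (N.inv_mem hσ) x
  rw [mul_inv_cancel, hC.xa_one] at h1
  exact h1.symm

theorem Cv.inv_act' (hC : Cv A E N xa ca dv cD) {σ : Ω ≃ₐ[k] Ω} (hσ : σ ∈ N) (x : X) :
    xa σ⁻¹ (xa σ x) = x := by
  have h1 := hC.xa_mul σ⁻¹ (N.inv_mem hσ) σ hσ x
  rw [inv_mul_cancel, hC.xa_one] at h1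
  exact h1.symm

theorem Cv.map_apply (hC : Cv A E N xa ca dv cD) {σ : Ω ≃ₐ[k] Ω} (hσ : σ ∈ N) (D : X →₀ ℤ)
    (x : X) : D.mapDomain (xa σ) x = D (xa σ⁻¹ x) := by
  conv_lhs => rw [← hC.inv_act hσ x]
  exact Finsupp.mapDomain_apply (hC.inj hσ) D _

end

end Pool.Agent.TIFC
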