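import Pool.Agent.TIFC.Defs
import Pool.Agent.TBM.Coh
import Pool.Agent.TBM.Br
import Pool.Agent.TBM.TGroup
import Pool.Agent.TIFC.LO
/-!
# The 2-cocycle of a coboundary is trivial
-/

set_option autoImplicit false

namespace Pool.Agent.TIFC

open Pool.Agent.TBR

universe u v w

section

variable {k Ω : Type u} [Field k] [Field Ω] [Algebra k Ω] {X : Type v} {C : Type w} [CommGroup C]
  {A E : IntermediateField k Ω} {N : Subgroup (Ω ≃ₐ[k] Ω)}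
  {xa : (Ω ≃ₐ[k] Ω) → X → X} {ca : (Ω ≃ₐ[k] Ω) → C →* C} {dv : Ωˣ → X →₀ ℤ}
  {cD : (X →₀ ℤ) → C}
  {a a' : (Ω ≃ₐ[k] Ω) → (Ω ≃ₐ[k] Ω) → Ωˣ} {b b' : (Ω ≃ₐ[k] Ω) → C}

/-- the image of a divisor depends only on the restriction to `A` -/
theorem A2_lc (hC : Cv A E N xa ca dv cD) (Y : X →₀ ℤ) :
    Lo1 N (A : Set Ω) (fun σ => Y.mapDomain (xa σ)) := by
  classical
  choose S hS1 hS2 using hC.xa_lc
  refine ⟨Y.support.biUnion S, ?_, fun σ hσ τ hτ ha => Finsupp.mapDomain_congr fun x hx =>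
    hS2 x σ hσ τ hτ (ha.mono fun z hz => ?_)⟩
  · intro z hz
    rw [Finset.mem_coe, Finset.mem_biUnion] at hz
    obtain ⟨x, _, hz⟩ := hz
    exact hS1 x hz
  · rw [Finset.mem_coe, Finset.mem_biUnion]
    exact ⟨x, hx, hz⟩

theorem A2_lo_map₂ {T : Set Ω} {M M' M'' : Type*} {f : (Ω ≃ₐ[k] Ω) → M} {f' : (Ω ≃ₐ[k] Ω) → M'}
    (h : Lo1 N T f) (h' : Lo1 N T f') (F : M → M' → M'') : Lo1 N T (fun σ => F (f σ) (f' σ)) := by
  classical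
  obtain ⟨S, h1, h2⟩ := h
  obtain ⟨S', h1', h2'⟩ := h'
  refine ⟨S ∪ S', by rw [Finset.coe_union]; exact Set.union_subset h1 h1', fun σ hσ τ hτ ha => ?_⟩
  rw [Finset.coe_union] at ha
  show F (f σ) (f' σ) = F (f τ) (f' τ)
  rw [h2 σ hσ τ hτ (ha.mono Set.subset_union_left), h2' σ hσ τ hτ (ha.mono Set.subset_union_right)]

theorem A2_map_add (σ : Ω ≃ₐ[k] Ω) (D D' : X →₀ ℤ) :
    (D + D').mapDomain (xa σ) = D.mapDomain (xa σ) + D'.mapDomain (xa σ) := Finsupp.mapDomain_add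

theorem A2_map_sub (σ : Ω ≃ₐ[k] Ω) (D D' : X →₀ ℤ) :
    (D - D').mapDomain (xa σ) = D.mapDomain (xa σ) - D'.mapDomain (xa σ) := by
  have h := A2_map_add (xa := xa) σ (D - D') D'
  rw [sub_add_cancel] at h
  rw [h, add_sub_cancel_right]

theorem A2_map_mul (hC : Cv A E N xa ca dv cD) {σ τ : Ω ≃ₐ[k] Ω} (hσ : σ ∈ N) (hτ : τ ∈ N)
    (D : X →₀ ℤ) : D.mapDomain (xa (σ * τ)) = (D.mapDomain (xa τ)).mapDomain (xa σ) := by
  rw [← Finsupp.mapDomain_comp]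
  exact Finsupp.mapDomain_congr fun x _ => hC.xa_mul σ hσ τ hτ x

/-- PROOF. `h` gives `D`. Choose `Y` with `cD Y = y` (`cD_sur`). For `σ ∈ N`:
`cD (D σ + Y - Y.mapDomain (xa σ)) = b σ * y * (ca σ y)⁻¹ = 1`, so by `cD_one` there is
`hh σ : Ωˣ` in `E` with `dv (hh σ) = D σ + Y - Y.mapDomain (xa σ)`. The right side depends only on
the restriction of `σ ∈ N` to a finite subset of `A` (`D` by hypothesis, `Y.mapDomain (xa σ)` by
`xa_lc` for the finitely many points of `Y.support`: `Finsupp.mapDomain_congr`), so choose `hh` as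
a function of the divisor (`F D := choice of e with dv e = D` if it exists): `hh` is `Lo1 N A`.
Put `c σ τ := a σ τ * (hh σ * σ • hh τ * (hh (σ * τ))⁻¹)`. For `σ, τ ∈ N`:
`dv (c σ τ) = D (σ τ) - D σ - σ D τ + (D σ + Y - σY) + σ (D τ + Y - τY) - (D (σ τ) + Y - στY) = 0`,
so `c σ τ ∈ A` (`dv_zero`; everything lies in `E`, `hS.stabE`). `c` is a 2-cocycle on `N` (product
of `a` and a coboundary: `Cob.coc`) and `Lo2 N A`: choose the finite set stable under `N`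
(`exists_stable N A`, orbits are finite by `hS.orb`), so that `hh (σ * τ)` and `σ • hh τ` depend
only on the restrictions; for `σ • hh τ` use that `hh` has finitely many values on `N`
(`finite_range`), that the values are in `E`, and that for `x ∈ E` the value `σ x`, `σ ∈ N`,
depends only on the restriction to a finite subset of `A`: this is `cpt N` (`TBM/Coh`) for
`f σ = σ x`, since `σ, τ ∈ N` which agree on `A` satisfy `σ⁻¹ τ ∈ N ⊓ Fx k A = Fx k E`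
(`hS.lin`). Extend `c` from `N` by `Lo2.extend` (`TBM/Base`) to an `Lc2 A` cochain and apply `tsu`
(`TBM/TGroup`, Tsen's theorem) with `D := N`, `κ := κ`, `E := A` : the cocycle `c` is the coboundary
of some `d`; then `a` is the coboundary of `d σ * (hh σ)⁻¹` (extend `hh` by `Lo1.extend`), so
`Tri N a`. -/
theorem tri_of_rel [IsAlgClosed Ω] (κ : IntermediateField k Ω) [IsAlgClosed κ] (hκ : κ ≤ A)
    (hκN : N ≤ Fx k (κ : Set Ω)) (t : Ω) (ht : t ∈ A) (htA : ∀ x ∈ A, IsAlgebraic (AA κ {t}) x)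
    (hS : Sit A E N) (hC : Cv A E N xa ca dv cD) (h : Rel A E N xa dv cD a b) (y : C)
    (hb : ∀ σ ∈ N, b σ * y = ca σ y) : Tri N a := by
  classical
  obtain ⟨ha, D, hDl, hDb, hDa⟩ := h
  obtain ⟨Y, hY⟩ := hC.cD_sur y
  -- the function with a given divisor
  obtain ⟨F, hF⟩ : ∃ F : (X →₀ ℤ) → Ωˣ, ∀ D', cD D' = 1 → (F D' : Ω) ∈ E ∧ dv (F D') = D' := by
    have h1 : ∀ D', ∃ e : Ωˣ, cD D' = 1 → (e : Ω) ∈ E ∧ dv e = D' := by
      intro D'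
      by_cases h2 : cD D' = 1
      · obtain ⟨e, he, he'⟩ := (hC.cD_one D').1 h2
        exact ⟨e, fun _ => ⟨he, he'⟩⟩
      · exact ⟨1, fun h3 => absurd h3 h2⟩
    choose F hF using h1
    exact ⟨F, hF⟩
  obtain ⟨hh, hhd⟩ : ∃ hh : (Ω ≃ₐ[k] Ω) → Ωˣ, ∀ σ, hh σ = F (D σ + Y - Y.mapDomain (xa σ)) :=
    ⟨_, fun _ => rfl⟩
  have hhl : Lo1 N (A : Set Ω) hh := by
    have h1 := A2_lo_map₂ hDl (A2_lc hC Y) (fun D₁ D₂ => F (D₁ + Y - D₂))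
    have h2 : hh = fun σ => F (D σ + Y - Y.mapDomain (xa σ)) := funext hhd
    rw [h2]
    exact h1
  have hone : ∀ σ ∈ N, cD (D σ + Y - Y.mapDomain (xa σ)) = 1 := by
    intro σ hσ
    rw [sub_eq_add_neg, hC.cD_add, hC.cD_add, hC.cD_neg, hC.cD_act σ hσ, hDb σ hσ, hY, hb σ hσ,
      mul_inv_cancel]
  have hhE : ∀ σ ∈ N, (hh σ : Ω) ∈ E := fun σ hσ => by
    rw [hhd]; exact (hF _ (hone σ hσ)).1
  have hhdv : ∀ σ ∈ N, dv (hh σ) = D σ + Y - Y.mapDomain (xa σ) := fun σ hσ => by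
    rw [hhd]; exact (hF _ (hone σ hσ)).2
  have hsE : ∀ σ ∈ N, ∀ u : Ωˣ, (u : Ω) ∈ E → ((σ • u : Ωˣ) : Ω) ∈ E := fun σ hσ u hu =>
    hS.stabE σ hσ u hu
  have hiE : ∀ u : Ωˣ, (u : Ω) ∈ E → ((u⁻¹ : Ωˣ) : Ω) ∈ E := fun u hu => by
    rw [Units.val_inv_eq_inv_val]; exact E.inv_mem hu
  have hmE : ∀ u v : Ωˣ, (u : Ω) ∈ E → (v : Ω) ∈ E → ((u * v : Ωˣ) : Ω) ∈ E := fun u v hu hv => by
    rw [Units.val_mul]; exact E.mul_mem hu hv
  have hcE : ∀ σ ∈ N, ∀ τ ∈ N,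
      ((a σ τ * (hh σ * σ • hh τ * (hh (σ * τ))⁻¹) : Ωˣ) : Ω) ∈ A := by
    intro σ hσ τ hτ
    have hστ := N.mul_mem hσ hτ
    have m1 := ha.mem σ hσ τ hτ
    have m2 := hhE σ hσ
    have m3 := hsE σ hσ _ (hhE τ hτ)
    have m4 := hiE _ (hhE _ hστ)
    rw [← hC.dv_zero _ (hmE _ _ m1 (hmE _ _ (hmE _ _ m2 m3) m4)), hC.dv_mul _ _ m1 (hmE _ _ (hmE _ _ m2 m3) m4),
      hC.dv_mul _ _ (hmE _ _ m2 m3) m4, hC.dv_mul _ _ m2 m3, hC.dv_inv _ (hhE _ hστ),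
      hC.dv_act σ hσ _ (hhE τ hτ), hhdv σ hσ, hhdv τ hτ, hhdv _ hστ, hDa σ hσ τ hτ,
      A2_map_sub, A2_map_add, A2_map_mul hC hσ hτ]
    abel
  have hcob : Cob N (fun σ τ => hh σ * σ • hh τ * (hh (σ * τ))⁻¹) hh := by
    intro σ _ τ _
    show hh σ * σ • hh τ * (hh (σ * τ))⁻¹ * hh (σ * τ) = hh σ * σ • hh τ
    rw [inv_mul_cancel_right]
  have hclo : Lo2 N (A : Set Ω) (fun σ τ => a σ τ * (hh σ * σ • hh τ * (hh (σ * τ))⁻¹)) :=
    lo2_mul ha.lc (lo2_cob hS hh hhl hhE)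
  have hccoc : Coc N (fun σ τ => a σ τ * (hh σ * σ • hh τ * (hh (σ * τ))⁻¹)) :=
    ha.coc.mul hcob.coc
  obtain ⟨c', hc'l, hc'N, _, _⟩ := hclo.extend 1
  have hc'coc : Coc N c' := by
    intro σ hσ τ hτ ρ hρ
    rw [hc'N σ hσ τ hτ, hc'N _ (N.mul_mem hσ hτ) ρ hρ, hc'N τ hτ ρ hρ, hc'N σ hσ _ (N.mul_mem hτ hρ)]
    exact hccoc σ hσ τ hτ ρ hρ
  obtain ⟨d, hdl, _, hdc⟩ := tsu N κ A hκ hκN (fun σ hσ x hx => (hS.stab σ hσ x).2 hx) t ht htA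
    (hS.orb.mono le_rfl (Set.subset_univ _)) c'
    (fun σ hσ τ hτ => by rw [hc'N σ hσ τ hτ]; exact hcE σ hσ τ hτ) hc'l hc'coc
  obtain ⟨hh', hh'l, hh'N, _⟩ := hhl.extend
  have hcob' : Cob N (fun σ τ => hh σ * σ • hh τ * (hh (σ * τ))⁻¹) hh' := by
    intro σ hσ τ hτ
    rw [hh'N _ (N.mul_mem hσ hτ), hh'N σ hσ, hh'N τ hτ]
    exact hcob σ hσ τ hτ
  refine ⟨fun σ => d σ * (hh' σ)⁻¹, (hdl.mono (Set.subset_univ _)).mul (hh'l.mono (Set.subset_univ _)).inv,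
    (hdc.mul hcob'.inv).congr fun σ hσ τ hτ => ?_⟩
  show c' σ τ * (hh σ * σ • hh τ * (hh (σ * τ))⁻¹)⁻¹ = a σ τ
  rw [hc'N σ hσ τ hτ, mul_inv_cancel_right]

end

end Pool.Agent.TIFC
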