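import Pool.Agent.TIFC.Defs
import Pool.Agent.TIFC.LO
import Pool.Agent.TBM.Coh
import Pool.Agent.TBM.Br

/-!
# An equivariant cocycle with values in the divisors is a coboundary
-/

set_option autoImplicit false

namespace Pool.Agent.TIFC

open Pool.Agent.TBR

universe u v w

section

variable {k Ω : Type u} [Field k] [Field Ω] [Algebra k Ω] {X : Type v} {C : Type w} [CommGroup C]
  {A E : IntermediateField k Ω} {N : Subgroup (Ω ≃ₐ[k] Ω)}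
  {xa : (Ω ≃ₐ[k] Ω) → X → X} {ca : (Ω ≃ₐ[k] Ω) → C →* C} {dv : Ωˣ → X →₀ ℤ}
  {cD : (X →₀ ℤ) → C}
  {a a' : (Ω ≃ₐ[k] Ω) → (Ω ≃ₐ[k] Ω) → Ωˣ} {b b' : (Ω ≃ₐ[k] Ω) → C}

/-- an equivariant cocycle with values in the divisors is a coboundary. PROOF. `F` depends on `N`
only on the restriction to a finite set, which we take stable under `N` (`exists_stable N A`): `S`.
Let `K = N ⊓ Fx k S`; the maps `σ|S` for `σ ∈ N` are finitely many (`finite_range` for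
`f σ = fun x : S => σ x`): choose representatives `T : Finset (Ω ≃ₐ[k] Ω)` in `N`, one for each
restriction to `S`; `n := T.card > 0`. `F (σ τ)` depends only on `τ|S`, so with
`Z := ∑ τ ∈ T, F τ` we get for `σ ∈ N`: `∑ τ ∈ T, F (σ * τ) = Z` (the map `T → T`, `τ ↦` the
representative of `σ τ` is a bijection and `F` depends only on the restriction to `S`), hence
`Z = n • F σ + Z.mapDomain (xa σ)`. Put `Y := Z.mapRange (fun m => m / n)` (floor division,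
`0 / n = 0`). `xa σ` is a bijection for `σ ∈ N` (`xa_one`, `xa_mul` with `σ⁻¹`), so at the point
`xa σ x`: `Z (xa σ x) = n * F σ (xa σ x) + Z x` (`Finsupp.mapDomain_apply`), and
`(n * m + z) / n = m + z / n`, so `Y (xa σ x) = F σ (xa σ x) + Y x`. -/
theorem perm (hS : Sit A E N) (hC : Cv A E N xa ca dv cD) (F : (Ω ≃ₐ[k] Ω) → X →₀ ℤ)
    (hF : Lo1 N (A : Set Ω) F)
    (hF' : ∀ σ ∈ N, ∀ τ ∈ N, F (σ * τ) = F σ + (F τ).mapDomain (xa σ)) :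
    ∃ Y : X →₀ ℤ, ∀ σ ∈ N, Y = F σ + Y.mapDomain (xa σ) := by
  classical
  obtain ⟨S, -, hSF⟩ := hF
  let r : (Ω ≃ₐ[k] Ω) → S → Ω := fun σ x => σ (x : Ω)
  have hfin : {g : S → Ω | ∃ σ ∈ N, r σ = g}.Finite :=
    finite_range N S (hS.orb.mono le_rfl (Set.subset_univ _)) r
      (fun σ _ τ _ h => funext fun x => h (x : Ω) x.2)
  have hch : ∀ g : S → Ω, ∃ ρ : Ω ≃ₐ[k] Ω, (∃ σ ∈ N, r σ = g) → ρ ∈ N ∧ r ρ = g := by
    intro g
    by_cases h : ∃ σ ∈ N, r σ = g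
    · obtain ⟨σ, h1, h2⟩ := h
      exact ⟨σ, fun _ => ⟨h1, h2⟩⟩
    · exact ⟨1, fun h' => absurd h' h⟩
  choose ρ hρ using hch
  have hrF : ∀ σ ∈ N, F (ρ (r σ)) = F σ := by
    intro σ hσ
    obtain ⟨h1, h2⟩ := hρ (r σ) ⟨σ, hσ, rfl⟩
    exact hSF _ h1 _ hσ fun x hx => congrFun h2 ⟨x, hx⟩
  have hmem : ∀ g : S → Ω, g ∈ hfin.toFinset ↔ ∃ σ ∈ N, r σ = g := fun g => by
    rw [Set.Finite.mem_toFinset]
    exact Iff.rfl
  have hn : 0 < hfin.toFinset.card := Finset.card_pos.2 ⟨r 1, (hmem _).2 ⟨1, N.one_mem, rfl⟩⟩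
  have hn' : ((hfin.toFinset.card : ℕ) : ℤ) ≠ 0 := by exact_mod_cast hn.ne'
  -- the cocycle on the restrictions
  have hcomp : ∀ σ ∈ N, ∀ g ∈ hfin.toFinset,
      F (ρ (fun x => σ (g x))) = F σ + (F (ρ g)).mapDomain (xa σ) := by
    intro σ hσ g hg
    obtain ⟨h1, h2⟩ := hρ g ((hmem g).1 hg)
    have h3 : (fun x => σ (g x)) = r (σ * ρ g) := by
      funext x
      show σ (g x) = σ ((ρ g) (x : Ω))
      have h4 : (ρ g) (x : Ω) = g x := congrFun h2 x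
      rw [h4]
    rw [h3, hrF _ (N.mul_mem hσ h1), hF' σ hσ _ h1]
  have hact : ∀ σ ∈ N, ∀ g ∈ hfin.toFinset, (fun x => σ (g x)) ∈ hfin.toFinset := by
    intro σ hσ g hg
    obtain ⟨τ, h1, rfl⟩ := (hmem g).1 hg
    exact (hmem _).2 ⟨σ * τ, N.mul_mem hσ h1, rfl⟩
  have hZ : ∀ σ ∈ N, ∑ g ∈ hfin.toFinset, F (ρ g) =
      hfin.toFinset.card • F σ + (∑ g ∈ hfin.toFinset, F (ρ g)).mapDomain (xa σ) := by
    intro σ hσ
    have h1 : ∑ g ∈ hfin.toFinset, F (ρ (fun x => σ (g x))) =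
        ∑ g ∈ hfin.toFinset, F (ρ g) := by
      refine Finset.sum_bij' (fun g _ => fun x => σ (g x)) (fun g _ => fun x => σ⁻¹ (g x))
        (hact σ hσ) (hact σ⁻¹ (N.inv_mem hσ)) ?_ ?_ ?_
      · intro g _
        funext x
        exact σ.symm_apply_apply (g x)
      · intro g _
        funext x
        exact σ.apply_symm_apply (g x)
      · intro g _
        rfl
    rw [Finset.sum_congr rfl (hcomp σ hσ), Finset.sum_add_distrib, Finset.sum_const] at h1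
    rw [← h1]
    congr 1
    rw [h1]
    exact (map_sum (Finsupp.mapDomain.addMonoidHom (xa σ) : (X →₀ ℤ) →+ (X →₀ ℤ))
      (fun g => F (ρ g)) hfin.toFinset).symm
  refine ⟨(∑ g ∈ hfin.toFinset, F (ρ g)).mapRange
    (fun m : ℤ => m / ((hfin.toFinset.card : ℕ) : ℤ)) (Int.zero_ediv _), fun σ hσ => ?_⟩
  ext x
  rw [Finsupp.add_apply, hC.map_apply hσ, Finsupp.mapRange_apply, Finsupp.mapRange_apply]
  have h2 := DFunLike.congr_fun (hZ σ hσ) x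
  rw [Finsupp.add_apply, hC.map_apply hσ, Finsupp.smul_apply, nsmul_eq_mul] at h2
  rw [h2, add_comm, Int.add_mul_ediv_left _ _ hn', add_comm]

/-- PROOF. Extend `a` from `N` by `Lo2.extend (m := 1)` (`TBM/Base`; the cochain stays normalised)
and apply `injA` (`TBM/Coh`) : there is `g₀` which is `Lc1 A`, fixed by `N ⊓ Fx k A = Fx k E`
(`hS.lin`), with `Cob N a g₀`. `g₀` has finitely many values on `N` (`finite_range`); by `perf`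
(`TBM/Br`) each value has a power `p ^ r` in `E`, take the maximal `r`; `g σ := g₀ σ ^ p ^ r`. So
`a σ τ ^ p ^ r * g (σ * τ) = g σ * σ • g τ` on `N`, and `g` has values in `E` on `N`. With the `D`
of `h` put `F σ := dv (g σ) + p ^ r • D σ`: it is `Lo1 N A` and
`F (σ * τ) = F σ + (F τ).mapDomain (xa σ)` for `σ, τ ∈ N` (`dv_mul`, `dv_act`; `dv (e ^ n) = n • dv e`
for `e ∈ E`). By `perm`, `Y = F σ + Y.mapDomain (xa σ)`. Apply `cD`: `cD (dv (g σ)) = 1`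
(`cD_one`), `cD (p ^ r • D σ) = b σ ^ p ^ r`, so `cD Y = b σ ^ p ^ r * ca σ (cD Y)`. Take
`y := (cD Y)⁻¹`: `b σ ^ p ^ r * y = ca σ y`. -/
theorem rel_of_tri (p : ℕ) [ExpChar Ω p] [IsAlgClosed Ω] (hS : Sit A E N)
    (hC : Cv A E N xa ca dv cD) (h : Rel A E N xa dv cD a b) (ht : Tri N a) :
    ∃ (r : ℕ) (y : C), ∀ σ ∈ N, b σ ^ p ^ r * y = ca σ y := by
  classical
  obtain ⟨hCo, D, hD1, hDb, hDa⟩ := h
  obtain ⟨a₁, hLc, hag, -, hone⟩ := hCo.lc.extend (1 : Ωˣ)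
  have hone' := hone fun σ hσ => hCo.one σ hσ
  have htri : Tri N a₁ := by
    obtain ⟨b₀, hb₀, hc₀⟩ := ht
    refine ⟨b₀, hb₀, fun σ hσ τ hτ => ?_⟩
    rw [hag σ hσ τ hτ]
    exact hc₀ σ hσ τ hτ
  obtain ⟨g₀, hg₀, hfix, hcob⟩ := injA A N (fun σ hσ x hx => (hS.stab σ hσ x).2 hx) hS.orb hS.clo
    a₁ hLc hone' htri
  have hper : ∀ σ, ∃ r : ℕ, ((g₀ σ : Ωˣ) : Ω) ^ p ^ r ∈ E := by
    intro σ
    refine perf p E hS.alg _ fun s hs => ?_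
    rw [← hS.lin] at hs
    have h1 := hfix σ s hs
    calc s ((g₀ σ : Ωˣ) : Ω) = ((s • g₀ σ : Ωˣ) : Ω) := rfl
      _ = _ := by rw [h1]
  obtain ⟨S₀, hS₀A, hS₀⟩ := hg₀
  have hfin : {m : Ωˣ | ∃ σ ∈ N, g₀ σ = m}.Finite :=
    finite_range N S₀ (hS.orb.mono le_rfl (Set.subset_univ _)) g₀ (fun σ _ τ _ h => hS₀ σ τ h)
  have hr : ∃ r : ℕ, ∀ σ ∈ N, ((g₀ σ : Ωˣ) : Ω) ^ p ^ r ∈ E := by
    have h1 : ∀ m : Ωˣ, ∃ r : ℕ, (∃ σ ∈ N, g₀ σ = m) → ((m : Ωˣ) : Ω) ^ p ^ r ∈ E := by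
      intro m
      by_cases hm : ∃ σ ∈ N, g₀ σ = m
      · obtain ⟨σ, _, hσ⟩ := hm
        obtain ⟨r, hr⟩ := hper σ
        exact ⟨r, fun _ => by rw [← hσ]; exact hr⟩
      · exact ⟨0, fun h => absurd h hm⟩
    choose r hr using h1
    refine ⟨hfin.toFinset.sup r, fun σ hσ => ?_⟩
    have h2 := hr (g₀ σ) ⟨σ, hσ, rfl⟩
    have h3 : r (g₀ σ) ≤ hfin.toFinset.sup r := Finset.le_sup (f := r)
      (hfin.mem_toFinset.2 ⟨σ, hσ, rfl⟩)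
    obtain ⟨d, hd⟩ := Nat.exists_eq_add_of_le h3
    rw [hd, pow_add, pow_mul]
    exact pow_mem h2 _
  obtain ⟨r, hr⟩ := hr
  obtain ⟨g, hg⟩ : ∃ g : (Ω ≃ₐ[k] Ω) → Ωˣ, ∀ σ, g σ = g₀ σ ^ p ^ r := ⟨_, fun _ => rfl⟩
  have hgE : ∀ σ ∈ N, (g σ : Ω) ∈ E := by
    intro σ hσ
    rw [hg, Units.val_pow_eq_pow_val]
    exact hr σ hσ
  have hgc : ∀ σ ∈ N, ∀ τ ∈ N, a σ τ ^ p ^ r * g (σ * τ) = g σ * σ • g τ := by
    intro σ hσ τ hτ
    have h1 := hcob σ hσ τ hτ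
    rw [hag σ hσ τ hτ] at h1
    rw [hg, hg, hg, ← mul_pow, h1, mul_pow, smul_pow']
  have hdv : ∀ σ ∈ N, ∀ τ ∈ N, dv (g (σ * τ)) + (p ^ r) • dv (a σ τ) =
      dv (g σ) + (dv (g τ)).mapDomain (xa σ) := by
    intro σ hσ τ hτ
    have h1 : (a σ τ : Ω) ∈ E := hCo.mem σ hσ τ hτ
    have h2 : ((a σ τ ^ p ^ r : Ωˣ) : Ω) ∈ E := by
      rw [Units.val_pow_eq_pow_val]
      exact pow_mem h1 _
    have h3 : ((σ • g τ : Ωˣ) : Ω) ∈ E := hS.stabE σ hσ _ (hgE τ hτ)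
    rw [← hC.dv_act σ hσ (g τ) (hgE τ hτ), ← hC.dv_mul _ _ (hgE σ hσ) h3, ← hgc σ hσ τ hτ,
      hC.dv_mul _ _ h2 (hgE _ (N.mul_mem hσ hτ)), hC.dv_pow _ h1, add_comm]
  obtain ⟨F, hF⟩ : ∃ F : (Ω ≃ₐ[k] Ω) → X →₀ ℤ, ∀ σ, F σ = dv (g σ) + (p ^ r) • D σ :=
    ⟨_, fun _ => rfl⟩
  have hF1 : Lo1 N (A : Set Ω) F := by
    obtain ⟨S₁, hS₁A, hS₁⟩ := hD1
    refine ⟨S₀ ∪ S₁, ?_, ?_⟩
    · rw [Finset.coe_union]
      exact Set.union_subset hS₀A hS₁A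
    · intro σ hσ τ hτ h
      have e1 : (S₀ : Set Ω) ⊆ ((S₀ ∪ S₁ : Finset Ω) : Set Ω) := by
        rw [Finset.coe_union]; exact Set.subset_union_left
      have e2 : (S₁ : Set Ω) ⊆ ((S₀ ∪ S₁ : Finset Ω) : Set Ω) := by
        rw [Finset.coe_union]; exact Set.subset_union_right
      rw [hF, hF, hg, hg, hS₀ σ τ (h.mono e1), hS₁ σ hσ τ hτ (h.mono e2)]
  have hF2 : ∀ σ ∈ N, ∀ τ ∈ N, F (σ * τ) = F σ + (F τ).mapDomain (xa σ) := by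
    intro σ hσ τ hτ
    have h1 := hdv σ hσ τ hτ
    rw [hDa σ hσ τ hτ] at h1
    rw [hF, hF, hF, Finsupp.mapDomain_add, Finsupp.mapDomain_smul]
    have h2 : dv (g (σ * τ)) = dv (g σ) + (dv (g τ)).mapDomain (xa σ) -
        (p ^ r) • (D (σ * τ) - D σ - (D τ).mapDomain (xa σ)) := by
      rw [← h1, add_sub_cancel_right]
    rw [h2, smul_sub, smul_sub]
    abel
  obtain ⟨Y, hY⟩ := perm hS hC F hF1 hF2
  refine ⟨r, (cD Y)⁻¹, fun σ hσ => ?_⟩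
  have h1 : cD Y = b σ ^ p ^ r * ca σ (cD Y) := by
    conv_lhs => rw [hY σ hσ]
    rw [hC.cD_add, hC.cD_act σ hσ, hF, hC.cD_add, (hC.cD_one (dv (g σ))).2 ⟨g σ, hgE σ hσ, rfl⟩,
      one_mul, hC.cD_nsmul, hDb σ hσ]
  rw [map_inv]
  rw [mul_inv_eq_iff_eq_mul]
  rw [eq_inv_mul_iff_mul_eq, mul_comm]
  exact h1.symm


end

end Pool.Agent.TIFC
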