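import Pool.Agent.TIFC.LO
import Pool.Agent.TBM.TGroup

/-!
# A 2-cocycle which is unramified over `A` comes from a 1-cocycle of divisor classes
-/

set_option autoImplicit false

namespace Pool.Agent.TIFC

open Pool.Agent.TBR

universe u v w

section

variable {k Ω : Type u} [Field k] [Field Ω] [Algebra k Ω] [IsAlgClosed Ω]
  {A E : IntermediateField k Ω} [IsAlgClosed A] {N : Subgroup (Ω ≃ₐ[k] Ω)}

/-- the cocycle comes from a cocycle with values in `E` -/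
theorem exists_cocE (p : ℕ) [ExpChar Ω p] (hS : Sit A E N)
    (c : (Ω ≃ₐ[k] Ω) → (Ω ≃ₐ[k] Ω) → Ωˣ) (hlc : Lc2 Set.univ c)
    (hc : Coc N c)
    (hun : ∀ V : ValuationSubring Ω, (∀ x ∈ A, x ∈ V) → V ≠ ⊤ → Tri (N ⊓ St k V) c) :
    ∃ (r : ℕ) (a : (Ω ≃ₐ[k] Ω) → (Ω ≃ₐ[k] Ω) → Ωˣ), CocE A E N a ∧
      Tri N (fun σ τ => c σ τ ^ p ^ r * (a σ τ)⁻¹) := by
  classical
  obtain ⟨t, htE, htA⟩ := hS.ne
  -- Tsen's theorem over `A`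
  have htri : Tri (N ⊓ Fx k (A : Set Ω)) c := by
    obtain ⟨b, hb, -, hcob⟩ := tsu (N ⊓ Fx k (A : Set Ω)) A ⊤ le_top inf_le_right
      (fun _ _ _ _ => trivial) t trivial (fun x _ => hS.trd t htA x)
      (hS.orb.mono inf_le_left (Set.subset_univ _)) c (fun _ _ _ _ => trivial)
      (hlc.mono (by intro x _; trivial)) (hc.mono inf_le_left)
    exact ⟨b, hb.mono (Set.subset_univ _), hcob⟩
  obtain ⟨a₀, ha₀, hfix, hone, hcoc, hrel⟩ := inflA A N (fun σ hσ x hx => (hS.stab σ hσ x).2 hx)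
    hS.orb hS.clo c hlc hc htri
  -- powers in `E`
  have hfin := bad_fin_finite hS.orb a₀ ha₀
  have hpow : ∀ m : Ωˣ, ∃ r : ℕ, (∃ σ ∈ N, ∃ τ ∈ N, a₀ σ τ = m) → (m : Ω) ^ p ^ r ∈ E := by
    intro m
    by_cases h : ∃ σ ∈ N, ∃ τ ∈ N, a₀ σ τ = m
    · obtain ⟨σ, hσ, τ, hτ, rfl⟩ := h
      obtain ⟨r, hr⟩ := perf p E hS.alg (a₀ σ τ : Ω) (fun s hs => by
        have h1 : s ∈ N ⊓ Fx k (A : Set Ω) := by rw [hS.lin]; exact hs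
        exact congrArg (fun u : Ωˣ => (u : Ω)) (hfix σ τ s h1))
      exact ⟨r, fun _ => hr⟩
    · exact ⟨0, fun h' => absurd h' h⟩
  choose rr hrr using hpow
  obtain ⟨r, hr⟩ : ∃ r, ∀ m, (∃ σ ∈ N, ∃ τ ∈ N, a₀ σ τ = m) → rr m ≤ r :=
    ⟨hfin.toFinset.sup rr, fun m hm => Finset.le_sup (f := rr) (hfin.mem_toFinset.2 hm)⟩
  have hE : ∀ σ ∈ N, ∀ τ ∈ N, ((a₀ σ τ ^ p ^ r : Ωˣ) : Ω) ∈ E := by
    intro σ hσ τ hτ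
    have h1 := hrr (a₀ σ τ) ⟨σ, hσ, τ, hτ, rfl⟩
    have h2 := hr (a₀ σ τ) ⟨σ, hσ, τ, hτ, rfl⟩
    rw [Units.val_pow_eq_pow_val, ← Nat.add_sub_cancel' h2, pow_add, pow_mul]
    exact pow_mem h1 _
  have hlo : Lo2 N (A : Set Ω) (fun σ τ => a₀ σ τ ^ p ^ r) := (ha₀.pow (p ^ r)).lo N
  obtain ⟨a, ha, ha1, ha2, ha3⟩ := hlo.extend 1
  have htria : Tri N (fun σ τ => c σ τ ^ p ^ r * (a σ τ)⁻¹) := by
    refine (hrel.inv.pow (p ^ r)).congr ?_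
    intro σ hσ τ hτ
    show ((a₀ σ τ * (c σ τ)⁻¹)⁻¹) ^ p ^ r = c σ τ ^ p ^ r * (a σ τ)⁻¹
    rw [ha1 σ hσ τ hτ, mul_inv_rev, inv_inv, mul_pow, inv_pow]
  refine ⟨r, a, ⟨ha, ?_, ?_, ?_, ?_⟩, htria⟩
  · intro σ τ
    rcases ha2 σ τ with h | ⟨σ', hσ', τ', hτ', h⟩
    · rw [h, Units.val_one]; exact E.one_mem
    · rw [h]; exact hE σ' hσ' τ' hτ'
  · have h1 := hcoc.pow (p ^ r)
    intro σ hσ τ hτ ρ hρ
    rw [ha1 σ hσ τ hτ, ha1 _ (N.mul_mem hσ hτ) ρ hρ, ha1 τ hτ ρ hρ, ha1 σ hσ _ (N.mul_mem hτ hρ)]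
    exact h1 σ hσ τ hτ ρ hρ
  · refine ha3 fun σ _ => ⟨?_, ?_⟩
    · show a₀ 1 σ ^ p ^ r = 1
      rw [(hone σ).1, one_pow]
    · show a₀ σ 1 ^ p ^ r = 1
      rw [(hone σ).2, one_pow]
  · intro V hV hV'
    have h1 := (hun V hV hV').pow (p ^ r)
    have h2 := (htria.mono (inf_le_left : N ⊓ St k V ≤ N)).inv
    refine (h1.mul h2).congr ?_
    intro σ _ τ _
    show c σ τ ^ p ^ r * (c σ τ ^ p ^ r * (a σ τ)⁻¹)⁻¹ = a σ τ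
    rw [mul_inv_rev, inv_inv, mul_comm (a σ τ), mul_inv_cancel_left]

variable {X : Type v} {C : Type w} [CommGroup C]
  {xa : (Ω ≃ₐ[k] Ω) → X → X} {ca : (Ω ≃ₐ[k] Ω) → C →* C} {dv : Ωˣ → X →₀ ℤ}
  {cD : (X →₀ ℤ) → C}

theorem rel_of_cocE (p : ℕ) [ExpChar Ω p] (hS : Sit A E N) (hC : Cv A E N xa ca dv cD)
    (a : (Ω ≃ₐ[k] Ω) → (Ω ≃ₐ[k] Ω) → Ωˣ) (ha : CocE A E N a) :
    ∃ (r : ℕ) (a' : (Ω ≃ₐ[k] Ω) → (Ω ≃ₐ[k] Ω) → Ωˣ) (b : (Ω ≃ₐ[k] Ω) → C),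
      Rel A E N xa dv cD a' b ∧ Tri N (fun σ τ => a σ τ ^ p ^ r * (a' σ τ)⁻¹) := by
  classical
  obtain ⟨hb1, hb2⟩ := bad_fin hS a ha
  obtain ⟨r, g, hg, hgE, hgu⟩ := glob hS p a ha (Bad A N a) (fun V hV => ⟨hV.1, hV.2.1⟩) hb1 hb2
  -- normalise
  have hinvE : ∀ u : Ωˣ, (u : Ω) ∈ E → ((u⁻¹ : Ωˣ) : Ω) ∈ E := fun u hu => by
    rw [Units.val_inv_eq_inv_val]; exact E.inv_mem hu
  have hmulE : ∀ u v : Ωˣ, (u : Ω) ∈ E → (v : Ω) ∈ E → ((u * v : Ωˣ) : Ω) ∈ E := fun u v hu hv => by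
    rw [Units.val_mul]; exact E.mul_mem hu hv
  have hactE : ∀ σ ∈ N, ∀ u : Ωˣ, (u : Ω) ∈ E → ((σ • u : Ωˣ) : Ω) ∈ E := fun σ hσ u hu =>
    hS.stabE σ hσ _ hu
  obtain ⟨f, hf⟩ : ∃ f : (Ω ≃ₐ[k] Ω) → Ωˣ, ∀ σ, f σ = g σ * (g 1)⁻¹ := ⟨_, fun _ => rfl⟩
  have hf1 : f 1 = 1 := by rw [hf, mul_inv_cancel]
  have hfl : Lo1 N (A : Set Ω) f := by
    have h1 := lo1_map (hg.lo N) (fun u => u * (g 1)⁻¹)
    obtain ⟨S, h2, h3⟩ := h1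
    exact ⟨S, h2, fun σ hσ τ hτ h => by rw [hf, hf]; exact h3 σ hσ τ hτ h⟩
  have hfE : ∀ σ, (f σ : Ω) ∈ E := fun σ => by
    rw [hf]; exact hmulE _ _ (hgE σ) (hinvE _ (hgE 1))
  obtain ⟨d, hd⟩ : ∃ d : (Ω ≃ₐ[k] Ω) → (Ω ≃ₐ[k] Ω) → Ωˣ, ∀ σ τ, d σ τ = f σ * σ • f τ * (f (σ * τ))⁻¹ :=
    ⟨_, fun _ _ => rfl⟩
  have hdcob : Cob N d f := by
    intro σ _ τ _
    rw [hd, inv_mul_cancel_right]
  have hdcoc : Coc N d := hdcob.coc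
  have hdE : ∀ σ ∈ N, ∀ τ ∈ N, (d σ τ : Ω) ∈ E := by
    intro σ hσ τ hτ
    rw [hd]
    exact hmulE _ _ (hmulE _ _ (hfE σ) (hactE σ hσ _ (hfE τ))) (hinvE _ (hfE _))
  have hdl : Lo2 N (A : Set Ω) d := by
    have h := lo2_cob hS f hfl (fun σ _ => hfE σ)
    have e : d = fun σ τ => f σ * σ • f τ * (f (σ * τ))⁻¹ := by funext σ τ; exact hd σ τ
    rw [e]; exact h
  obtain ⟨e, he⟩ : ∃ e : (Ω ≃ₐ[k] Ω) → (Ω ≃ₐ[k] Ω) → Ωˣ, ∀ σ τ, e σ τ = a σ τ ^ p ^ r * (d σ τ)⁻¹ :=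
    ⟨_, fun _ _ => rfl⟩
  have heE : ∀ σ ∈ N, ∀ τ ∈ N, (e σ τ : Ω) ∈ E := by
    intro σ hσ τ hτ
    rw [he]
    refine hmulE _ _ ?_ (hinvE _ (hdE σ hσ τ hτ))
    rw [Units.val_pow_eq_pow_val]
    exact pow_mem (ha.mem σ τ) _
  have heu : ∀ V, Bad A N a V → ∀ σ ∈ N, ∀ τ ∈ N, e σ τ ∈ V.unitGroup := by
    intro V hV σ hσ τ hτ
    have h1 := hgu V hV σ hσ τ hτ
    have h2 := hgu V hV σ hσ 1 N.one_mem
    rw [(ha.one σ).2, one_pow, one_mul, mul_one, mul_inv_rev, mul_comm (g σ), mul_assoc,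
      inv_mul_cancel, mul_one] at h2
    have h3 : e σ τ = a σ τ ^ p ^ r * g (σ * τ) * (g σ * σ • g τ)⁻¹ * ((σ • g 1)⁻¹)⁻¹ := by
      rw [he, hd, hf, hf, hf, smul_mul', smul_inv']
      apply Additive.ofMul.injective
      simp only [ofMul_mul, ofMul_inv]
      abel
    rw [h3]
    exact mul_mem h1 (inv_mem h2)
  -- the good points
  let good : X → Prop := fun x => ∀ σ ∈ N, ∀ τ ∈ N, dv (a σ τ) x = 0
  have hbad : ∀ x, ¬ good x → ∀ σ ∈ N, ∀ τ ∈ N, dv (e σ τ) x = 0 := by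
    intro x hx σ hσ τ hτ
    obtain ⟨V, hV1, hV2, hV3⟩ := hC.pl x
    have hB : Bad A N a V := by
      refine ⟨hV1, hV2, ?_⟩
      by_contra hcon
      apply hx
      intro σ' hσ' τ' hτ'
      rw [← hV3 _ (ha.mem σ' τ')]
      by_contra h8
      exact hcon ⟨σ', hσ', τ', hτ', h8⟩
    exact (hV3 _ (heE σ hσ τ hτ)).1 (heu V hB σ hσ τ hτ)
  have hgood : ∀ x, good x → ∀ ρ ∈ N, good (xa ρ x) := by
    intro x hx ρ hρ σ hσ τ hτ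
    have h1 : dv (ρ⁻¹ • a σ τ) x = dv (a σ τ) (xa ρ x) := by
      rw [hC.dv_act ρ⁻¹ (N.inv_mem hρ) _ (ha.mem σ τ), hC.map_apply (N.inv_mem hρ), inv_inv]
    have h2 := ha.coc ρ⁻¹ (N.inv_mem hρ) σ hσ τ hτ
    have h3 : ρ⁻¹ • a σ τ = a ρ⁻¹ σ * a (ρ⁻¹ * σ) τ * (a ρ⁻¹ (σ * τ))⁻¹ := by
      rw [h2, mul_inv_cancel_right]
    rw [← h1, h3, hC.dv_mul _ _ (hmulE _ _ (ha.mem _ _) (ha.mem _ _)) (hinvE _ (ha.mem _ _)),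
      hC.dv_mul _ _ (ha.mem _ _) (ha.mem _ _), hC.dv_inv _ (ha.mem _ _)]
    simp only [Finsupp.add_apply, Finsupp.neg_apply]
    rw [hx ρ⁻¹ (N.inv_mem hρ) σ hσ, hx _ (N.mul_mem (N.inv_mem hρ) hσ) τ hτ,
      hx ρ⁻¹ (N.inv_mem hρ) _ (N.mul_mem hσ hτ)]
    simp
  have hgood' : ∀ x, ∀ ρ ∈ N, good (xa ρ x) → good x := by
    intro x ρ hρ h
    have := hgood _ h ρ⁻¹ (N.inv_mem hρ)
    rwa [hC.inv_act' hρ] at this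
  obtain ⟨D, hD⟩ : ∃ D : (Ω ≃ₐ[k] Ω) → X →₀ ℤ, ∀ σ, D σ = (dv (f σ)).filter good := ⟨_, fun _ => rfl⟩
  have hDg : ∀ σ x, good x → D σ x = dv (f σ) x := fun σ x hx => by
    rw [hD, Finsupp.filter_apply_pos _ _ hx]
  have hDb : ∀ σ x, ¬ good x → D σ x = 0 := fun σ x hx => by
    rw [hD, Finsupp.filter_apply_neg _ _ hx]
  have hDl : Lo1 N (A : Set Ω) D := by
    have h1 := lo1_map hfl (fun u => (dv u).filter good)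
    obtain ⟨S, h2, h3⟩ := h1
    exact ⟨S, h2, fun σ hσ τ hτ h => by rw [hD, hD]; exact h3 σ hσ τ hτ h⟩
  refine ⟨r, e, fun σ => cD (D σ), ⟨⟨?_, heE, ?_, ?_⟩, D, hDl, fun _ _ => rfl, ?_⟩, ?_⟩
  · have h1 := lo2_mul ((ha.lc.pow (p ^ r)).lo N) (lo2_map hdl (fun u => u⁻¹))
    obtain ⟨S, h2, h3⟩ := h1
    exact ⟨S, h2, fun σ hσ σ' hσ' τ hτ τ' hτ' h h' => by
      rw [he, he]; exact h3 σ hσ σ' hσ' τ hτ τ' hτ' h h'⟩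
  · have h1 := (ha.coc.pow (p ^ r)).mul hdcoc.inv
    intro σ hσ τ hτ ρ hρ
    rw [he, he, he, he]
    exact h1 σ hσ τ hτ ρ hρ
  · intro σ hσ
    rw [he, he, hd, hd, (ha.one σ).1, (ha.one σ).2, hf1, one_mul, mul_one, one_smul, smul_one,
      one_mul, mul_one]
    simp
  · intro σ hσ τ hτ
    ext x
    rw [Finsupp.sub_apply, Finsupp.sub_apply, hC.map_apply hσ]
    by_cases hx : good x
    · have hx' : good (xa σ⁻¹ x) := hgood x hx σ⁻¹ (N.inv_mem hσ)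
      rw [hDg _ _ hx, hDg _ _ hx, hDg _ _ hx']
      have h1 : dv (e σ τ) = p ^ r • dv (a σ τ) - (dv (f σ) + (dv (f τ)).mapDomain (xa σ)
          - dv (f (σ * τ))) := by
        have e1 : ((a σ τ ^ p ^ r : Ωˣ) : Ω) ∈ E := by
          rw [Units.val_pow_eq_pow_val]; exact pow_mem (ha.mem σ τ) _
        rw [he, hC.dv_mul _ _ e1 (hinvE _ (hdE σ hσ τ hτ)), hC.dv_pow _ (ha.mem σ τ),
          hC.dv_inv _ (hdE σ hσ τ hτ), hd,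
          hC.dv_mul _ _ (hmulE _ _ (hfE σ) (hactE σ hσ _ (hfE τ))) (hinvE _ (hfE _)),
          hC.dv_mul _ _ (hfE σ) (hactE σ hσ _ (hfE τ)), hC.dv_act σ hσ _ (hfE τ),
          hC.dv_inv _ (hfE _)]
        abel
      rw [h1, Finsupp.sub_apply, Finsupp.sub_apply, Finsupp.add_apply, Finsupp.smul_apply,
        hC.map_apply hσ, hx σ hσ τ hτ]
      simp
      ring
    · have hx' : ¬ good (xa σ⁻¹ x) := fun h => hx (hgood' x σ⁻¹ (N.inv_mem hσ) h)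
      rw [hDb _ _ hx, hDb _ _ hx, hDb _ _ hx', hbad x hx σ hσ τ hτ]
      simp
  · have h1 : Tri N d := by
      obtain ⟨f', hf', h2, -⟩ := (show Lo1 N (A : Set Ω) f from hfl).extend
      refine ⟨f', hf'.mono (Set.subset_univ _), ?_⟩
      intro σ hσ τ hτ
      rw [h2 _ (N.mul_mem hσ hτ), h2 σ hσ, h2 τ hτ]
      exact hdcob σ hσ τ hτ
    refine h1.congr ?_
    intro σ _ τ _
    rw [he, mul_inv_rev, inv_inv, mul_comm (d σ τ), mul_inv_cancel_left]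

/-- a 2-cocycle which is unramified over `A` comes from a 1-cocycle of divisor classes -/
theorem exists_rel (p : ℕ) [ExpChar Ω p] (hS : Sit A E N)
    (hC : Cv A E N xa ca dv cD) (c : (Ω ≃ₐ[k] Ω) → (Ω ≃ₐ[k] Ω) → Ωˣ) (hlc : Lc2 Set.univ c)
    (hc : Coc N c)
    (hun : ∀ V : ValuationSubring Ω, (∀ x ∈ A, x ∈ V) → V ≠ ⊤ → Tri (N ⊓ St k V) c) :
    ∃ (r : ℕ) (a : (Ω ≃ₐ[k] Ω) → (Ω ≃ₐ[k] Ω) → Ωˣ) (b : (Ω ≃ₐ[k] Ω) → C),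
      Rel A E N xa dv cD a b ∧ Tri N (fun σ τ => c σ τ ^ p ^ r * (a σ τ)⁻¹) := by
  obtain ⟨r₁, a₁, ha₁, h₁⟩ := exists_cocE p hS c hlc hc hun
  obtain ⟨r₂, a, b, h, h₂⟩ := rel_of_cocE p hS hC a₁ ha₁
  refine ⟨r₁ + r₂, a, b, h, ?_⟩
  refine ((h₁.pow (p ^ r₂)).mul h₂).congr ?_
  intro σ _ τ _
  show (c σ τ ^ p ^ r₁ * (a₁ σ τ)⁻¹) ^ p ^ r₂ * (a₁ σ τ ^ p ^ r₂ * (a σ τ)⁻¹) =
    c σ τ ^ p ^ (r₁ + r₂) * (a σ τ)⁻¹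
  rw [mul_pow, ← pow_mul, ← pow_add, inv_pow, mul_assoc, inv_mul_cancel_left]

end

end Pool.Agent.TIFC
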