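import Pool.Agent.TIFC.CH

/-!
# The 2-cocycle of a character with values in the classes of finite order
-/

set_option autoImplicit false

namespace Pool.Agent.TIFC

open Pool.Agent.TBR

universe u v w

section

variable {k Ω : Type u} [Field k] [Field Ω] [Algebra k Ω] {X : Type v} {C : Type w} [CommGroup C]
  {A E : IntermediateField k Ω} {N : Subgroup (Ω ≃ₐ[k] Ω)}
  {xa : (Ω ≃ₐ[k] Ω) → X → X} {ca : (Ω ≃ₐ[k] Ω) → C →* C} {dv : Ωˣ → X →₀ ℤ}
  {cD : (X →₀ ℤ) → C}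

theorem Cv.dv_prod (hC : Cv A E N xa ca dv cD) {ι : Type*} (s : Finset ι) (f : ι → Ωˣ)
    (hf : ∀ i, (f i : Ω) ∈ E) : ((∏ i ∈ s, f i : Ωˣ) : Ω) ∈ E ∧
      dv (∏ i ∈ s, f i) = ∑ i ∈ s, dv (f i) := by
  classical
  induction s using Finset.induction_on with
  | empty =>
    rw [Finset.prod_empty, Finset.sum_empty, Units.val_one]
    exact ⟨E.one_mem, hC.dv_one⟩
  | insert i s hi ih =>
    rw [Finset.prod_insert hi, Finset.sum_insert hi, Units.val_mul]
    exact ⟨E.mul_mem (hf i) ih.1, by rw [hC.dv_mul _ _ (hf i) ih.1, ih.2]⟩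

theorem Cv.cD_sum (hC : Cv A E N xa ca dv cD) {ι : Type*} (s : Finset ι) (f : ι → X →₀ ℤ) :
    cD (∑ i ∈ s, f i) = ∏ i ∈ s, cD (f i) := by
  classical
  induction s using Finset.induction_on with
  | empty => rw [Finset.prod_empty, Finset.sum_empty, hC.cD_zero]
  | insert i s hi ih => rw [Finset.prod_insert hi, Finset.sum_insert hi, hC.cD_add, ih]

theorem rel_car (hS : Sit A E N) (hC : Cv A E N xa ca dv cD) {m : ℕ} (N₀ : ℕ) (hN₀ : 0 < N₀)
    (I : Fin m → X →₀ ℤ) (hI : ∀ i, ∀ σ ∈ N, (I i).mapDomain (xa σ) = I i)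
    (f : Fin m → Ωˣ) (hf : ∀ i, (f i : Ω) ∈ E) (hf' : ∀ i, dv (f i) = N₀ • I i)
    (hfN : ∀ i, ∀ σ ∈ N, σ • f i = f i)
    (j : Fin m → (Ω ≃ₐ[k] Ω) → ℕ) (hj : ∀ i, Chr N N₀ (j i)) (hj' : ∀ i, Lo1 N (A : Set Ω) (j i)) :
    Rel A E N xa dv cD (fun σ τ => ∏ i, f i ^ car N₀ (j i) σ τ)
      (fun σ => ∏ i, (cD (I i) ^ j i σ)⁻¹) := by
  classical
  refine ⟨coE_car hS f hf hfN j hj hj', fun σ => - ∑ i, j i σ • I i, ?_, ?_, ?_⟩
  · choose S hS1 hS2 using hj'
    refine ⟨Finset.univ.biUnion S, ?_, ?_⟩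
    · intro x hx
      simp only [Finset.coe_biUnion, Set.mem_iUnion, Finset.mem_coe] at hx
      obtain ⟨i, -, hx⟩ := hx
      exact hS1 i hx
    · intro σ hσ τ hτ h
      show - ∑ i, j i σ • I i = - ∑ i, j i τ • I i
      congr 1
      refine Finset.sum_congr rfl fun i _ => ?_
      have e : (S i : Set Ω) ⊆ (Finset.univ.biUnion S : Finset Ω) := by
        intro x hx
        rw [Finset.mem_coe, Finset.mem_biUnion]
        exact ⟨i, Finset.mem_univ _, hx⟩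
      rw [hS2 i σ hσ τ hτ (h.mono e)]
  · intro σ _
    show cD (- ∑ i, j i σ • I i) = ∏ i, (cD (I i) ^ j i σ)⁻¹
    rw [hC.cD_neg, hC.cD_sum, Finset.prod_inv_distrib]
    congr 1
    exact Finset.prod_congr rfl fun i _ => hC.cD_nsmul _ _
  · intro σ hσ τ hτ
    have hpE : ∀ i, ((f i ^ car N₀ (j i) σ τ : Ωˣ) : Ω) ∈ E := fun i => by
      rw [Units.val_pow_eq_pow_val]; exact pow_mem (hf i) _
    show dv (∏ i, f i ^ car N₀ (j i) σ τ) = (- ∑ i, j i (σ * τ) • I i) - (- ∑ i, j i σ • I i)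
      - (- ∑ i, j i τ • I i).mapDomain (xa σ)
    rw [(hC.dv_prod Finset.univ _ hpE).2]
    have e1 : (- ∑ i, j i τ • I i).mapDomain (xa σ) = - ∑ i, j i τ • I i := by
      have h1 : ∀ D : X →₀ ℤ, (-D).mapDomain (xa σ) = - D.mapDomain (xa σ) := fun D =>
        map_neg (Finsupp.mapDomain.addMonoidHom (xa σ)) D
      have h2 : ∀ (n : ℕ) (D : X →₀ ℤ), (n • D).mapDomain (xa σ) = n • D.mapDomain (xa σ) :=
        fun n D => map_nsmul (Finsupp.mapDomain.addMonoidHom (xa σ)) n D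
      rw [h1, Finsupp.mapDomain_finsetSum]
      congr 1
      refine Finset.sum_congr rfl fun i _ => ?_
      rw [h2, hI i σ hσ]
    rw [e1, sub_neg_eq_add, sub_neg_eq_add, ← Finset.sum_neg_distrib, ← Finset.sum_add_distrib,
      ← Finset.sum_add_distrib]
    refine Finset.sum_congr rfl fun i _ => ?_
    have h3 := (hj i).mul_car hσ hτ
    rw [hC.dv_pow _ (hf i), hf', smul_smul, mul_comm, add_assoc, ← add_smul, ← h3, add_smul,
      add_comm (_ • _) (j i (σ * τ) • I i), neg_add_cancel_left]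

end

end Pool.Agent.TIFC
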