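import Pool.Agent.TIFC.A5

/-!
# The classes of a coboundary
-/

set_option autoImplicit false

namespace Pool.Agent.TIFC

open Pool.Agent.TBR

universe u v w

section

variable {k Ω : Type u} [Field k] [Field Ω] [Algebra k Ω] {X : Type v} {C : Type w} [CommGroup C]
  {A E : IntermediateField k Ω} {N : Subgroup (Ω ≃ₐ[k] Ω)}
  {xa : (Ω ≃ₐ[k] Ω) → X → X} {ca : (Ω ≃ₐ[k] Ω) → C →* C} {dv : Ωˣ → X →₀ ℤ}
  {cD : (X →₀ ℤ) → C}

/-- the conjugates of a divisor depend only on the restriction to `A` -/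
theorem Cv.lo1_act (hC : Cv A E N xa ca dv cD) (Y : X →₀ ℤ) :
    Lo1 N (A : Set Ω) (fun σ => Y.mapDomain (xa σ)) := by
  classical
  choose S hS1 hS2 using hC.xa_lc
  refine ⟨Y.support.biUnion S, ?_, ?_⟩
  · intro y hy
    rw [Finset.mem_coe, Finset.mem_biUnion] at hy
    obtain ⟨x, -, hy⟩ := hy
    exact hS1 x hy
  · intro σ hσ τ hτ h
    refine Finsupp.mapDomain_congr fun x hx => hS2 x σ hσ τ hτ (h.mono ?_)
    intro y hy
    rw [Finset.mem_coe, Finset.mem_biUnion]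
    exact ⟨x, hx, hy⟩

/-- the cocycle of a coboundary may be taken to be trivial -/
theorem Rel.cob (hC : Cv A E N xa ca dv cD) (y : C) :
    Rel A E N xa dv cD (fun _ _ => 1) (fun σ => ca σ y / y) := by
  obtain ⟨Y, rfl⟩ := hC.cD_sur y
  refine ⟨⟨⟨∅, by simp, fun _ _ _ _ _ _ _ _ _ _ => rfl⟩, fun _ _ _ _ => ?_, ?_,
    fun _ _ => ⟨rfl, rfl⟩⟩, fun σ => Y.mapDomain (xa σ) - Y, ?_, ?_, ?_⟩
  · rw [Units.val_one]
    exact E.one_mem
  · intro σ _ τ _ ρ _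
    show (1 : Ωˣ) * 1 = σ • (1 : Ωˣ) * 1
    rw [smul_one]
  · exact lo1_map (hC.lo1_act Y) (fun D => D - Y)
  · intro σ hσ
    show cD (Y.mapDomain (xa σ) - Y) = ca σ (cD Y) / cD Y
    rw [sub_eq_add_neg, hC.cD_add, hC.cD_neg, hC.cD_act σ hσ, div_eq_mul_inv]
  · intro σ hσ τ hτ
    have h1 : (Y.mapDomain (xa τ) - Y).mapDomain (xa σ) =
        Y.mapDomain (xa (σ * τ)) - Y.mapDomain (xa σ) := by
      have h2 : ∀ D D' : X →₀ ℤ, (D - D').mapDomain (xa σ) =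
          D.mapDomain (xa σ) - D'.mapDomain (xa σ) := fun D D' =>
        map_sub (Finsupp.mapDomain.addMonoidHom (xa σ)) D D'
      rw [h2, ← Finsupp.mapDomain_comp]
      congr 2
      funext x
      exact (hC.xa_mul σ hσ τ hτ x).symm
    show dv 1 = (Y.mapDomain (xa (σ * τ)) - Y) - (Y.mapDomain (xa σ) - Y) -
      (Y.mapDomain (xa τ) - Y).mapDomain (xa σ)
    rw [hC.dv_one, h1]
    abel

end

end Pool.Agent.TIFC
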