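import Pool.Agent.TIFC.Defs
import Pool.Agent.TBM.Coh
import Pool.Agent.TBM.Br

/-!
# Symbols
-/

set_option autoImplicit false

namespace Pool.Agent.TIFC

open Pool.Agent.TBR

universe u v w

section

variable {k Ω : Type u} [Field k] [Field Ω] [Algebra k Ω] {X : Type v} {C : Type w} [CommGroup C]
  {A E : IntermediateField k Ω} {N : Subgroup (Ω ≃ₐ[k] Ω)}
  {xa : (Ω ≃ₐ[k] Ω) → X → X} {ca : (Ω ≃ₐ[k] Ω) → C →* C} {dv : Ωˣ → X →₀ ℤ}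
  {cD : (X →₀ ℤ) → C}
  {a a' : (Ω ≃ₐ[k] Ω) → (Ω ≃ₐ[k] Ω) → Ωˣ} {b b' : (Ω ≃ₐ[k] Ω) → C}

/-- the carry -/
theorem B1_car {N₀ : ℕ} (hN₀ : 0 < N₀) {j : (Ω ≃ₐ[k] Ω) → ℕ} (hj : Chr N N₀ j) {σ τ : Ω ≃ₐ[k] Ω}
    (hσ : σ ∈ N) (hτ : τ ∈ N) : N₀ * car N₀ j σ τ + j (σ * τ) = j σ + j τ := by
  have h1 : j (σ * τ) = (j σ + j τ) % N₀ := by
    rw [← Nat.mod_eq_of_lt (hj.lt _ (N.mul_mem hσ hτ))]
    exact hj.add σ hσ τ hτ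
  have h2 := Nat.div_add_mod (j σ + j τ) N₀
  have h3 : j σ + j τ - j (σ * τ) = N₀ * ((j σ + j τ) / N₀) := by omega
  rw [car, h3, Nat.mul_div_cancel_left _ hN₀, h1, h2]

theorem B1_smul_pow (σ : Ω ≃ₐ[k] Ω) (x : Ωˣ) (n : ℕ) : σ • (x ^ n) = (σ • x) ^ n :=
  smul_pow' σ x n

/-- one symbol -/
theorem B1_one {N₀ : ℕ} (hN₀ : 0 < N₀) (ζ : Ωˣ) (hζ : ζ ^ N₀ = 1)
    (hζN : ∀ σ ∈ N, σ • ζ = ζ) (w u f g : Ωˣ) (hw : w ^ N₀ = f) (hu : u ^ N₀ = g)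
    (χ j : (Ω ≃ₐ[k] Ω) → ℕ) (hχ : Chr N N₀ χ) (hj : Chr N N₀ j)
    (hwχ : ∀ σ ∈ N, σ • w = ζ ^ χ σ * w) (huj : ∀ σ ∈ N, σ • u = ζ ^ j σ * u) {σ τ : Ω ≃ₐ[k] Ω}
    (hσ : σ ∈ N) (hτ : τ ∈ N) :
    f ^ car N₀ j σ τ * g ^ car N₀ χ σ τ *
      (u ^ χ (σ * τ) * w ^ j (σ * τ) * ζ ^ (χ (σ * τ) * j (σ * τ))) =
    (u ^ χ σ * w ^ j σ * ζ ^ (χ σ * j σ)) * σ • (u ^ χ τ * w ^ j τ * ζ ^ (χ τ * j τ)) := by
  have e1 := B1_car hN₀ hj hσ hτ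
  have e2 := B1_car hN₀ hχ hσ hτ
  have e3 : ζ ^ (χ (σ * τ) * j (σ * τ)) = ζ ^ ((χ σ + χ τ) * (j σ + j τ)) := by
    refine pow_eq_pow_of_modEq ?_ hζ
    exact Nat.ModEq.mul (hχ.add σ hσ τ hτ) (hj.add σ hσ τ hτ)
  rw [smul_mul', smul_mul', B1_smul_pow, B1_smul_pow, B1_smul_pow, hζN σ hσ, hwχ σ hσ, huj σ hσ, e3,
    mul_pow, mul_pow, ← pow_mul, ← pow_mul]
  have e4 : f ^ car N₀ j σ τ * w ^ j (σ * τ) = w ^ (j σ + j τ) := by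
    rw [← hw, ← pow_mul, ← pow_add, e1]
  have e5 : g ^ car N₀ χ σ τ * u ^ χ (σ * τ) = u ^ (χ σ + χ τ) := by
    rw [← hu, ← pow_mul, ← pow_add, e2]
  have e6 : ζ ^ ((χ σ + χ τ) * (j σ + j τ)) = ζ ^ (χ σ * j σ) * ζ ^ (j σ * χ τ) * ζ ^ (χ σ * j τ) *
      ζ ^ (χ τ * j τ) := by
    rw [← pow_add, ← pow_add, ← pow_add]
    congr 1
    ring
  calc f ^ car N₀ j σ τ * g ^ car N₀ χ σ τ *
      (u ^ χ (σ * τ) * w ^ j (σ * τ) * ζ ^ ((χ σ + χ τ) * (j σ + j τ)))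
      = (f ^ car N₀ j σ τ * w ^ j (σ * τ)) * (g ^ car N₀ χ σ τ * u ^ χ (σ * τ)) *
        ζ ^ ((χ σ + χ τ) * (j σ + j τ)) := by
        apply Additive.ofMul.injective
        simp only [ofMul_mul]
        abel
    _ = _ := by
        rw [e4, e5, e6, pow_add, pow_add]
        apply Additive.ofMul.injective
        simp only [ofMul_mul]
        abel

theorem B1_lo {m : ℕ} {M : Type*} {χ : Fin m → (Ω ≃ₐ[k] Ω) → M} (h : ∀ i, Lo1 N Set.univ (χ i)) :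
    ∃ S : Finset Ω, ∀ i, ∀ σ ∈ N, ∀ τ ∈ N, Ag (S : Set Ω) σ τ → χ i σ = χ i τ := by
  classical
  choose S hS1 hS2 using h
  refine ⟨Finset.univ.biUnion S, fun i σ hσ τ hτ ha => hS2 i σ hσ τ hτ (ha.mono ?_)⟩
  intro x hx
  rw [Finset.mem_coe, Finset.mem_biUnion]
  exact ⟨i, Finset.mem_univ i, hx⟩

/-- symbols: the cup products of `χ` and `j` in both orders. PROOF. For `σ, τ ∈ N`:
`N₀ * car N₀ j σ τ = j σ + j τ - j (σ τ)` (natural numbers, `j (σ τ) ≤ j σ + j τ`, `Chr`), the same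
for `χ`. Put `b₀ σ := ∏ i, u i ^ χ i σ * w i ^ j i σ * ζ ^ (χ i σ * j i σ)`. Then
`b₀ σ * σ • b₀ τ = (∏ f i ^ car (j i) σ τ * g i ^ car (χ i) σ τ) * b₀ (σ * τ)`:
`σ • u i ^ χ τ = ζ ^ (j σ * χ τ) * u i ^ χ τ`, `σ • w i ^ j τ = ζ ^ (χ σ * j τ) * w i ^ j τ`,
`u i ^ (χ σ + χ τ) = u i ^ χ (σ τ) * g i ^ car χ σ τ`, `w i ^ (j σ + j τ) = ...`, and
`ζ ^ (χ σ j σ + χ τ j τ + j σ χ τ + χ σ j τ) = ζ ^ ((χ σ + χ τ) * (j σ + j τ)) =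
ζ ^ (χ (σ τ) * j (σ τ))` since the exponents are congruent mod `N₀` (`ζ ^ N₀ = 1`:
`pow_eq_pow_of_modEq`). `b₀` is `Lo1 N univ` (it depends only on the values of the `χ i` and `j i`),
extend it by `Lo1.extend` of `TBM/Base`. -/
theorem symb {m : ℕ} (N₀ : ℕ) (hN₀ : 0 < N₀) (ζ : Ωˣ) (hζ : ζ ^ N₀ = 1)
    (hζN : ∀ σ ∈ N, σ • ζ = ζ) (w u f g : Fin m → Ωˣ) (hw : ∀ i, w i ^ N₀ = f i)
    (hu : ∀ i, u i ^ N₀ = g i) (χ j : Fin m → (Ω ≃ₐ[k] Ω) → ℕ) (hχ : ∀ i, Chr N N₀ (χ i))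
    (hj : ∀ i, Chr N N₀ (j i)) (hχl : ∀ i, Lo1 N Set.univ (χ i)) (hjl : ∀ i, Lo1 N Set.univ (j i))
    (hwχ : ∀ i, ∀ σ ∈ N, σ • w i = ζ ^ χ i σ * w i) (huj : ∀ i, ∀ σ ∈ N, σ • u i = ζ ^ j i σ * u i) :
    Tri N (fun σ τ => (∏ i, f i ^ car N₀ (j i) σ τ) * ∏ i, g i ^ car N₀ (χ i) σ τ) := by
  classical
  obtain ⟨S, hS⟩ := B1_lo hχl
  obtain ⟨S', hS'⟩ := B1_lo hjl
  have hlo : Lo1 N Set.univ (fun σ => ∏ i, (u i ^ χ i σ * w i ^ j i σ * ζ ^ (χ i σ * j i σ))) := by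
    refine ⟨S ∪ S', Set.subset_univ _, fun σ hσ τ hτ ha => ?_⟩
    rw [Finset.coe_union] at ha
    refine Finset.prod_congr rfl fun i _ => ?_
    rw [hS i σ hσ τ hτ (ha.mono Set.subset_union_left), hS' i σ hσ τ hτ (ha.mono Set.subset_union_right)]
  obtain ⟨b, hb, hb1, _⟩ := hlo.extend
  refine ⟨b, hb, ?_⟩
  intro σ hσ τ hτ
  show (∏ i, f i ^ car N₀ (j i) σ τ) * (∏ i, g i ^ car N₀ (χ i) σ τ) * b (σ * τ) = b σ * σ • b τ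
  rw [hb1 _ (N.mul_mem hσ hτ), hb1 σ hσ, hb1 τ hτ, Finset.smul_prod', ← Finset.prod_mul_distrib,
    ← Finset.prod_mul_distrib, ← Finset.prod_mul_distrib]
  refine Finset.prod_congr rfl fun i _ => ?_
  exact B1_one hN₀ ζ hζ hζN (w i) (u i) (f i) (g i) (hw i) (hu i) (χ i) (j i) (hχ i) (hj i) (hwχ i)
    (huj i) hσ hτ

end

end Pool.Agent.TIFC
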