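import Pool.Agent.TIFC.A5

/-!
# The residue of a symbol at a fixed point
-/

set_option autoImplicit false

namespace Pool.Agent.TIFC

open Pool.Agent.TBR

universe u v w

section

variable {k Ω : Type u} [Field k] [Field Ω] [Algebra k Ω] {X : Type v} {C : Type w} [CommGroup C]
  {A E : IntermediateField k Ω} {N : Subgroup (Ω ≃ₐ[k] Ω)}
  {xa : (Ω ≃ₐ[k] Ω) → X → X} {ca : (Ω ≃ₐ[k] Ω) → C →* C} {dv : Ωˣ → X →₀ ℤ}
  {cD : (X →₀ ℤ) → C}

/-- an additive function on `N` with finitely many values is zero -/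
theorem add_zero_of_fin (μ : (Ω ≃ₐ[k] Ω) → ℤ) (hμ : ∀ σ ∈ N, ∀ τ ∈ N, μ (σ * τ) = μ σ + μ τ)
    (hfin : {m | ∃ σ ∈ N, μ σ = m}.Finite) (σ : Ω ≃ₐ[k] Ω) (hσ : σ ∈ N) : μ σ = 0 := by
  by_contra h
  have h1 : μ 1 = 0 := by
    have := hμ 1 N.one_mem 1 N.one_mem
    rw [mul_one] at this
    omega
  have h2 : ∀ n : ℕ, μ (σ ^ n) = n * μ σ := by
    intro n
    induction n with
    | zero => rw [pow_zero, h1]; simp
    | succ n ih =>
      rw [pow_succ, hμ _ (N.pow_mem hσ n) _ hσ, ih]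
      push_cast
      ring
  have h3 : Function.Injective (fun n : ℕ => μ (σ ^ n)) := by
    intro n n' hn
    simp only [h2] at hn
    have := mul_right_cancel₀ h hn
    exact_mod_cast this
  refine Set.infinite_range_of_injective h3 (hfin.subset ?_)
  rintro _ ⟨n, rfl⟩
  exact ⟨σ ^ n, N.pow_mem hσ n, rfl⟩

theorem resid (p : ℕ) [ExpChar Ω p] [IsAlgClosed Ω] [IsAlgClosed A] (hS : Sit A E N)
    (hC : Cv A E N xa ca dv cD) {m : ℕ} (N₀ : ℕ) (hN₀ : 0 < N₀) (hp : Nat.Coprime N₀ p)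
    (g : Fin m → Ωˣ) (hg : ∀ i, (g i : Ω) ∈ E) (hgN : ∀ i, ∀ σ ∈ N, σ • g i = g i)
    (χ : Fin m → (Ω ≃ₐ[k] Ω) → ℕ) (hχ : ∀ i, Chr N N₀ (χ i))
    (hχl : ∀ i, Lo1 N (A : Set Ω) (χ i)) (x : X) (hx : ∀ σ ∈ N, xa σ x = x)
    (hun : ∀ V : ValuationSubring Ω, (∀ x ∈ A, x ∈ V) → V ≠ ⊤ →
      Tri (N ⊓ St k V) (fun σ τ => ∏ i, g i ^ car N₀ (χ i) σ τ)) :
    ∀ σ ∈ N, (N₀ : ℤ) ∣ ∑ i, dv (g i) x * χ i σ := by
  classical
  have hco := coE_car hS g hg hgN χ hχ hχl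
  obtain ⟨a₀, ha₀⟩ : ∃ a₀ : (Ω ≃ₐ[k] Ω) → (Ω ≃ₐ[k] Ω) → Ωˣ,
    a₀ = fun σ τ => ∏ i, g i ^ car N₀ (χ i) σ τ := ⟨_, rfl⟩
  rw [← ha₀] at hco
  obtain ⟨a, hal, ha1, ha2, ha3⟩ := hco.lc.extend 1
  have haE : CocE A E N a := by
    refine ⟨hal, ?_, ?_, ?_, ?_⟩
    · intro σ τ
      rcases ha2 σ τ with h | ⟨σ', hσ', τ', hτ', h⟩
      · rw [h, Units.val_one]; exact E.one_mem
      · rw [h]; exact hco.mem σ' hσ' τ' hτ'
    · intro σ hσ τ hτ ρ hρ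
      rw [ha1 σ hσ τ hτ, ha1 _ (N.mul_mem hσ hτ) ρ hρ, ha1 τ hτ ρ hρ, ha1 σ hσ _ (N.mul_mem hτ hρ)]
      exact hco.coc σ hσ τ hτ ρ hρ
    · exact ha3 fun σ hσ => hco.one σ hσ
    · intro V hV hV'
      refine (hun V hV hV').congr ?_
      intro σ hσ τ hτ
      rw [ha1 σ hσ.1 τ hτ.1, ha₀]
  obtain ⟨V, hV1, hV2, hV3⟩ := hC.pl x
  obtain ⟨r, n, hnl, hnE, hn⟩ := loc hS p a haE V hV1 hV2
  -- `N` preserves the trace of `V`
  have hdvx : ∀ σ ∈ N, ∀ e : Ωˣ, (e : Ω) ∈ E → dv (σ • e) x = dv e x := by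
    intro σ hσ e he
    rw [hC.dv_act σ hσ e he, hC.map_apply hσ, hx σ⁻¹ (N.inv_mem hσ)]
  have hmem : ∀ e : Ωˣ, (e : Ω) ∈ V ↔ (e ∈ V.unitGroup ∨
      ∃ f : Ωˣ, (f : Ω) = 1 + (e : Ω) ∧ f ∈ V.unitGroup) := by
    intro e
    constructor
    · intro he
      have h1 := (V.valuation_le_one_iff _).2 he
      rcases h1.lt_or_eq with h2 | h2
      · right
        have h3 : V.valuation (1 + (e : Ω)) = 1 := by
          have := V.valuation.map_add_eq_of_lt_right (x := (e : Ω)) (y := 1) (by rw [map_one]; exact h2)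
          rw [add_comm, this, map_one]
        have h4 : (1 + (e : Ω)) ≠ 0 := by
          intro h5
          rw [h5, map_zero] at h3
          exact zero_ne_one h3
        exact ⟨Units.mk0 _ h4, rfl, (V.mem_unitGroup_iff _).2 h3⟩
      · left
        exact (V.mem_unitGroup_iff _).2 h2
    · rintro (h1 | ⟨f, hf, h1⟩)
      · exact (V.valuation_le_one_iff _).1 ((V.mem_unitGroup_iff _).1 h1).le
      · have h2 := (V.valuation_le_one_iff _).1 ((V.mem_unitGroup_iff _).1 h1).le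
        rw [hf] at h2
        have h3 : (e : Ω) = (1 + (e : Ω)) - 1 := by ring
        rw [h3]
        exact V.sub_mem h2 V.one_mem
  have hpres : ∀ σ ∈ N, ∀ y ∈ E, (y ∈ V → σ y ∈ V) := by
    intro σ hσ y hy hyV
    by_cases hy0 : y = 0
    · rw [hy0, map_zero]; exact V.zero_mem
    · have h1 := (hmem (Units.mk0 y hy0)).1 hyV
      have key : ∀ e : Ωˣ, (e : Ω) ∈ E → e ∈ V.unitGroup → σ • e ∈ V.unitGroup := by
        intro e he heV
        rw [hV3 _ he] at heV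
        rw [hV3 _ (hS.stabE σ hσ _ he), hdvx σ hσ e he]
        exact heV
      have h2 : ((σ • Units.mk0 y hy0 : Ωˣ) : Ω) ∈ V := by
        rw [hmem]
        rcases h1 with h1 | ⟨f, hf, h1⟩
        · left
          exact key _ hy h1
        · right
          refine ⟨σ • f, ?_, key f (by rw [hf]; exact E.add_mem E.one_mem hy) h1⟩
          show σ (f : Ω) = 1 + σ y
          rw [hf, map_add, map_one]
          rfl
      exact h2
  have hpres' : ∀ σ ∈ N, ∀ y ∈ E, σ y ∈ V ↔ y ∈ V := by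
    intro σ hσ y hy
    refine ⟨fun h => ?_, hpres σ hσ y hy⟩
    have h1 := hpres σ⁻¹ (N.inv_mem hσ) (σ y) (hS.stabE σ hσ y hy) h
    have h2 : σ⁻¹ (σ y) = y := σ.symm_apply_apply y
    rwa [h2] at h1
  -- the additive function
  have hinvE : ∀ u : Ωˣ, (u : Ω) ∈ E → ((u⁻¹ : Ωˣ) : Ω) ∈ E := fun u hu => by
    rw [Units.val_inv_eq_inv_val]; exact E.inv_mem hu
  have hmulE : ∀ u v : Ωˣ, (u : Ω) ∈ E → (v : Ω) ∈ E → ((u * v : Ωˣ) : Ω) ∈ E := fun u v hu hv => by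
    rw [Units.val_mul]; exact E.mul_mem hu hv
  have hpowE : ∀ (u : Ωˣ) (n : ℕ), (u : Ω) ∈ E → ((u ^ n : Ωˣ) : Ω) ∈ E := fun u n hu => by
    rw [Units.val_pow_eq_pow_val]; exact pow_mem hu n
  have hrel : ∀ σ ∈ N, ∀ τ ∈ N, (p ^ r : ℤ) * ∑ i, (car N₀ (χ i) σ τ : ℤ) * dv (g i) x
      + dv (n (σ * τ)) x - (dv (n σ) x + dv (n τ) x) = 0 := by
    intro σ hσ τ hτ
    have h1 := hn σ hσ τ hτ (hpres' σ hσ) (hpres' τ hτ)
    have eA : ((a σ τ ^ p ^ r : Ωˣ) : Ω) ∈ E := hpowE _ _ (haE.mem σ τ)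
    have eB : ((σ • n τ : Ωˣ) : Ω) ∈ E := hS.stabE σ hσ _ (hnE τ)
    rw [hV3 _ (hmulE _ _ (hmulE _ _ eA (hnE _)) (hinvE _ (hmulE _ _ (hnE _) eB))),
      hC.dv_mul _ _ (hmulE _ _ eA (hnE _)) (hinvE _ (hmulE _ _ (hnE _) eB)),
      hC.dv_mul _ _ eA (hnE _), hC.dv_inv _ (hmulE _ _ (hnE _) eB),
      hC.dv_mul _ _ (hnE _) eB, hC.dv_pow _ (haE.mem σ τ), ha1 σ hσ τ hτ, ha₀] at h1
    simp only [Finsupp.add_apply, Finsupp.neg_apply, Finsupp.smul_apply, nsmul_eq_mul] at h1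
    rw [hdvx σ hσ _ (hnE τ), (hC.dv_prod Finset.univ _ (fun i => hpowE _ _ (hg i))).2,
      Finsupp.finsetSum_apply] at h1
    have h2 : ∑ i, (dv (g i ^ car N₀ (χ i) σ τ)) x = ∑ i, (car N₀ (χ i) σ τ : ℤ) * dv (g i) x := by
      refine Finset.sum_congr rfl fun i _ => ?_
      rw [hC.dv_pow _ (hg i), Finsupp.smul_apply, nsmul_eq_mul]
    rw [h2] at h1
    push_cast at h1
    linarith
  obtain ⟨μ, hμ⟩ : ∃ μ : (Ω ≃ₐ[k] Ω) → ℤ, ∀ σ, μ σ = N₀ * dv (n σ) x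
      - (p ^ r : ℤ) * ∑ i, (χ i σ : ℤ) * dv (g i) x := ⟨_, fun _ => rfl⟩
  have hμadd : ∀ σ ∈ N, ∀ τ ∈ N, μ (σ * τ) = μ σ + μ τ := by
    intro σ hσ τ hτ
    have h1 := hrel σ hσ τ hτ
    have h2 : ∑ i, (χ i (σ * τ) : ℤ) * dv (g i) x + (N₀ : ℤ) * ∑ i, (car N₀ (χ i) σ τ : ℤ) * dv (g i) x
        = ∑ i, (χ i σ : ℤ) * dv (g i) x + ∑ i, (χ i τ : ℤ) * dv (g i) x := by
      rw [Finset.mul_sum, ← Finset.sum_add_distrib, ← Finset.sum_add_distrib]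
      refine Finset.sum_congr rfl fun i _ => ?_
      have h3 : (N₀ : ℤ) * car N₀ (χ i) σ τ + χ i (σ * τ) = χ i σ + χ i τ := by
        exact_mod_cast (hχ i).mul_car hσ hτ
      have h4 : (χ i (σ * τ) : ℤ) = χ i σ + χ i τ - N₀ * car N₀ (χ i) σ τ := by linarith
      rw [h4]
      ring
    rw [hμ, hμ, hμ]
    have h5 : ∑ i, (χ i (σ * τ) : ℤ) * dv (g i) x = ∑ i, (χ i σ : ℤ) * dv (g i) x
        + ∑ i, (χ i τ : ℤ) * dv (g i) x - (N₀ : ℤ) * ∑ i, (car N₀ (χ i) σ τ : ℤ) * dv (g i) x := by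
      linarith
    have h6 : dv (n (σ * τ)) x = dv (n σ) x + dv (n τ) x
        - (p ^ r : ℤ) * ∑ i, (car N₀ (χ i) σ τ : ℤ) * dv (g i) x := by linarith
    rw [h5, h6]
    ring
  have hfin : {z | ∃ σ ∈ N, μ σ = z}.Finite := by
    have h1 : ∃ S : Finset Ω, (S : Set Ω) ⊆ A ∧ ∀ σ ∈ N, ∀ τ ∈ N, Ag (S : Set Ω) σ τ → μ σ = μ τ := by
      obtain ⟨S₀, hS₀, hS₀'⟩ := hnl
      choose S hS1 hS2 using hχl
      refine ⟨S₀ ∪ Finset.univ.biUnion S, ?_, ?_⟩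
      · intro y hy
        rw [Finset.mem_coe, Finset.mem_union, Finset.mem_biUnion] at hy
        rcases hy with hy | ⟨i, -, hy⟩
        · exact hS₀ hy
        · exact hS1 i hy
      · intro σ hσ τ hτ h
        have e0 : n σ = n τ := hS₀' σ τ (h.mono (by
          intro y hy
          rw [Finset.mem_coe, Finset.mem_union]
          exact Or.inl hy))
        have e1 : ∀ i, χ i σ = χ i τ := fun i => hS2 i σ hσ τ hτ (h.mono (by
          intro y hy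
          rw [Finset.mem_coe, Finset.mem_union, Finset.mem_biUnion]
          exact Or.inr ⟨i, Finset.mem_univ _, hy⟩))
        rw [hμ, hμ, e0]
        simp only [e1]
    obtain ⟨S, hSA, h2⟩ := h1
    exact finite_range N S (hS.orb.mono le_rfl (Set.subset_univ _)) μ h2
  intro σ hσ
  have h1 := add_zero_of_fin μ hμadd hfin σ hσ
  rw [hμ] at h1
  have h2 : (N₀ : ℤ) ∣ (p ^ r : ℤ) * ∑ i, (χ i σ : ℤ) * dv (g i) x :=
    ⟨dv (n σ) x, by linarith⟩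
  have h3 : IsCoprime (N₀ : ℤ) (p ^ r : ℤ) := by
    have := Nat.isCoprime_iff_coprime.2 (hp.pow_right r)
    push_cast at this
    exact this
  have h4 := h3.dvd_of_dvd_mul_left h2
  have h5 : ∑ i, dv (g i) x * (χ i σ : ℤ) = ∑ i, (χ i σ : ℤ) * dv (g i) x :=
    Finset.sum_congr rfl fun i _ => mul_comm _ _
  rw [h5]
  exact h4

end

end Pool.Agent.TIFC
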