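import Pool.Agent.TIFC.A5

/-!
# Independence of the Kummer characters
-/

set_option autoImplicit false

namespace Pool.Agent.TIFC

open Pool.Agent.TBR

universe u v w

section

variable {k Ω : Type u} [Field k] [Field Ω] [Algebra k Ω] {X : Type v} {C : Type w} [CommGroup C]
  {A E : IntermediateField k Ω} {N : Subgroup (Ω ≃ₐ[k] Ω)}
  {xa : (Ω ≃ₐ[k] Ω) → X → X} {ca : (Ω ≃ₐ[k] Ω) → C →* C} {dv : Ωˣ → X →₀ ℤ}
  {cD : (X →₀ ℤ) → C}

theorem kumm (p : ℕ) [ExpChar Ω p] [IsAlgClosed Ω] (hS : Sit A E N)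
    (hC : Cv A E N xa ca dv cD) {m : ℕ} (N₀ : ℕ) (hN₀ : 0 < N₀) (hp : Nat.Coprime N₀ p)
    (ζ : Ωˣ) (hζ : ζ ^ N₀ = 1) (w f : Fin m → Ωˣ) (hw : ∀ i, w i ^ N₀ = f i)
    (I : Fin m → X →₀ ℤ) (hf : ∀ i, (f i : Ω) ∈ E) (hf' : ∀ i, dv (f i) = N₀ • I i)
    (χ : Fin m → (Ω ≃ₐ[k] Ω) → ℕ) (hwχ : ∀ i, ∀ σ ∈ N, σ • w i = ζ ^ χ i σ * w i)
    (q : Fin m → ℤ) (hq : ∀ σ ∈ N, (N₀ : ℤ) ∣ ∑ i, q i * χ i σ) : ∏ i, cD (I i) ^ q i = 1 := by
  classical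
  obtain ⟨W, hW⟩ : ∃ W : Ωˣ, W = ∏ i, w i ^ q i := ⟨_, rfl⟩
  have hzE : ∀ (u : Ωˣ) (n : ℤ), (u : Ω) ∈ E → ((u ^ n : Ωˣ) : Ω) ∈ E := by
    intro u n hu
    rw [Units.val_zpow_eq_zpow_val]
    exact zpow_mem hu n
  have hWN : ∀ σ ∈ N, σ • W = W := by
    intro σ hσ
    rw [hW, Finset.smul_prod']
    have e1 : ∀ i, σ • (w i ^ q i) = ζ ^ (q i * χ i σ) * w i ^ q i := by
      intro i
      rw [smul_zpow_units, hwχ i σ hσ, mul_zpow, ← zpow_natCast, ← zpow_mul, mul_comm (q i)]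
    rw [Finset.prod_congr rfl (fun i _ => e1 i), Finset.prod_mul_distrib]
    have e2 : ∏ i, ζ ^ (q i * χ i σ) = ζ ^ (∑ i, q i * (χ i σ : ℤ)) := by
      have h0 : ∀ s : Finset (Fin m), ∏ i ∈ s, ζ ^ (q i * χ i σ) =
          ζ ^ (∑ i ∈ s, q i * (χ i σ : ℤ)) := by
        intro s
        induction s using Finset.induction_on with
        | empty => rw [Finset.prod_empty, Finset.sum_empty, zpow_zero]
        | insert i s hi ih => rw [Finset.prod_insert hi, Finset.sum_insert hi, zpow_add, ih]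
      exact h0 _
    have e3 : ζ ^ (∑ i, q i * (χ i σ : ℤ)) = 1 := by
      obtain ⟨d, hd⟩ := hq σ hσ
      rw [hd, zpow_mul, zpow_natCast, hζ, one_zpow]
    rw [e2, e3, one_mul]
  obtain ⟨r, hr⟩ := perf p E hS.alg (W : Ω) (fun s hs => by
    have h1 : s ∈ N ⊓ Fx k (A : Set Ω) := by rw [hS.lin]; exact hs
    exact congrArg (fun u : Ωˣ => (u : Ω)) (hWN s h1.1))
  have hrE : ((W ^ p ^ r : Ωˣ) : Ω) ∈ E := by rw [Units.val_pow_eq_pow_val]; exact hr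
  have h1 : (W ^ p ^ r) ^ N₀ = ∏ i, f i ^ (q i * (p ^ r : ℕ)) := by
    rw [← pow_mul, mul_comm, pow_mul, hW, ← Finset.prod_pow, ← Finset.prod_pow]
    refine Finset.prod_congr rfl fun i _ => ?_
    rw [← hw i, ← zpow_natCast (w i), ← zpow_natCast, ← zpow_natCast, ← zpow_mul, ← zpow_mul,
      ← zpow_mul]
    congr 1
    ring
  have h2 : N₀ • dv (W ^ p ^ r) = N₀ • (p ^ r • ∑ i, q i • I i) := by
    rw [← hC.dv_pow _ hrE, h1, (hC.dv_prod Finset.univ _ (fun i => hzE _ _ (hf i))).2,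
      Finset.smul_sum, Finset.smul_sum]
    refine Finset.sum_congr rfl fun i _ => ?_
    rw [hC.dv_zpow _ (hf i), hf' i, ← natCast_zsmul, ← natCast_zsmul, ← natCast_zsmul, smul_smul,
      smul_smul, smul_smul]
    congr 1
    ring
  have h3 : dv (W ^ p ^ r) = p ^ r • ∑ i, q i • I i := by
    ext x
    have h4 := DFunLike.congr_fun h2 x
    simp only [Finsupp.smul_apply, nsmul_eq_mul] at h4
    have h5 : (N₀ : ℤ) ≠ 0 := by exact_mod_cast hN₀.ne'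
    rw [Finsupp.smul_apply, nsmul_eq_mul]
    exact mul_left_cancel₀ h5 h4
  have h4 : (∏ i, cD (I i) ^ q i) ^ p ^ r = 1 := by
    have h5 : cD (p ^ r • ∑ i, q i • I i) = 1 := (hC.cD_one _).2 ⟨_, hrE, h3⟩
    rw [hC.cD_nsmul, hC.cD_sum] at h5
    rw [← h5]
    congr 1
    exact Finset.prod_congr rfl fun i _ => (hC.cD_zsmul _ _).symm
  have h5 : (∏ i, cD (I i) ^ q i) ^ N₀ = 1 := by
    rw [← Finset.prod_pow]
    refine Finset.prod_eq_one fun i _ => ?_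
    have h6 : cD (I i) ^ N₀ = 1 := by
      rw [← hC.cD_nsmul]
      exact (hC.cD_one _).2 ⟨f i, hf i, hf' i⟩
    rw [← zpow_natCast, ← zpow_mul, mul_comm, zpow_mul, zpow_natCast, h6, one_zpow]
  have h6 : Nat.Coprime N₀ (p ^ r) := hp.pow_right r
  have h7 := Nat.dvd_gcd (orderOf_dvd_of_pow_eq_one h5) (orderOf_dvd_of_pow_eq_one h4)
  rw [Nat.Coprime.gcd_eq_one h6] at h7
  exact orderOf_eq_one_iff.1 (Nat.dvd_one.1 h7)

end

end Pool.Agent.TIFC
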