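import Pool.Agent.TIFC.A1
import Pool.Agent.TIFC.A2
import Pool.Agent.TIFC.A3
import Pool.Agent.TIFC.A4
import Pool.Agent.TIFC.A5
import Pool.Agent.TIFC.A6
import Pool.Agent.TIFC.B1
import Pool.Agent.TIFC.B2
import Pool.Agent.TIFC.B3

/-!
# Cocycles and divisor classes of a curve over a field of functions: all statements
-/
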