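import Pool.Agent.TBM.Base

/-!
# Cocycles and divisor classes of a curve over a field of functions: definitions
-/

set_option autoImplicit false

namespace Pool.Agent.TIFC

open Pool.Agent.TBR

universe u v w

section

variable {k Ω : Type u} [Field k] [Field Ω] [Algebra k Ω]

/-- `Ω` is an algebraic closure of the field `E`, a function field of one variable over `A`, and
`N` is a closed group of automorphisms which preserve `A` and `E`, with finite orbits; the elements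
of `N` over `A` are the elements over `E` -/
structure Sit (A E : IntermediateField k Ω) (N : Subgroup (Ω ≃ₐ[k] Ω)) : Prop where
  le : A ≤ E
  ne : ∃ t : Ω, t ∈ E ∧ t ∉ A
  trd : ∀ t : Ω, t ∉ A → ∀ x : Ω, IsAlgebraic (AA A {t}) x
  alg : ∀ x : Ω, IsAlgebraic E x
  stab : ∀ σ ∈ N, ∀ x : Ω, σ x ∈ A ↔ x ∈ A
  stabE : ∀ σ ∈ N, ∀ x : Ω, x ∈ E → σ x ∈ E
  lin : N ⊓ Fx k (A : Set Ω) = Fx k (E : Set Ω)
  fg : ∃ B : Finset Ω, E = AA A (B : Set Ω)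
  orb : Orb N Set.univ
  clo : Clo N

/-- the points `X`, the divisors and the divisor classes `C` of an affine curve over `A` with the
function field `E` and one point at infinity; `xa` and `ca` are the actions of `N`, `dv` is the
divisor of a function and `cD` the class of a divisor -/
structure Cv (A E : IntermediateField k Ω) (N : Subgroup (Ω ≃ₐ[k] Ω)) {X : Type v} {C : Type w}
    [CommGroup C] (xa : (Ω ≃ₐ[k] Ω) → X → X) (ca : (Ω ≃ₐ[k] Ω) → C →* C) (dv : Ωˣ → X →₀ ℤ)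
    (cD : (X →₀ ℤ) → C) : Prop where
  dv_mul : ∀ e f : Ωˣ, (e : Ω) ∈ E → (f : Ω) ∈ E → dv (e * f) = dv e + dv f
  dv_zero : ∀ e : Ωˣ, (e : Ω) ∈ E → (dv e = 0 ↔ (e : Ω) ∈ A)
  cD_add : ∀ D D' : X →₀ ℤ, cD (D + D') = cD D * cD D'
  cD_one : ∀ D : X →₀ ℤ, cD D = 1 ↔ ∃ e : Ωˣ, (e : Ω) ∈ E ∧ dv e = D
  cD_sur : ∀ y : C, ∃ D, cD D = y
  xa_one : ∀ x : X, xa 1 x = x
  xa_mul : ∀ σ ∈ N, ∀ τ ∈ N, ∀ x : X, xa (σ * τ) x = xa σ (xa τ x)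
  dv_act : ∀ σ ∈ N, ∀ e : Ωˣ, (e : Ω) ∈ E → dv (σ • e) = (dv e).mapDomain (xa σ)
  cD_act : ∀ σ ∈ N, ∀ D : X →₀ ℤ, cD (D.mapDomain (xa σ)) = ca σ (cD D)
  xa_lc : ∀ x : X, ∃ S : Finset Ω, (S : Set Ω) ⊆ A ∧ ∀ σ ∈ N, ∀ τ ∈ N, Ag (S : Set Ω) σ τ →
    xa σ x = xa τ x
  pl : ∀ x : X, ∃ V : ValuationSubring Ω, (∀ a ∈ A, a ∈ V) ∧ V ≠ ⊤ ∧
    ∀ e : Ωˣ, (e : Ω) ∈ E → (e ∈ V.unitGroup ↔ dv e x = 0)

/-- a normalised continuous 2-cocycle of `N` with values in the units of `E`, which depends only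
on the restrictions to `A` -/
structure CoE (A E : IntermediateField k Ω) (N : Subgroup (Ω ≃ₐ[k] Ω))
    (a : (Ω ≃ₐ[k] Ω) → (Ω ≃ₐ[k] Ω) → Ωˣ) : Prop where
  lc : Lo2 N (A : Set Ω) a
  mem : ∀ σ ∈ N, ∀ τ ∈ N, (a σ τ : Ω) ∈ E
  coc : Coc N a
  one : ∀ σ ∈ N, a 1 σ = 1 ∧ a σ 1 = 1

/-- the divisor of the 2-cocycle `a` is the coboundary of a 1-cochain with the classes `b` -/
def Rel (A E : IntermediateField k Ω) (N : Subgroup (Ω ≃ₐ[k] Ω)) {X : Type v} {C : Type w}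
    (xa : (Ω ≃ₐ[k] Ω) → X → X) (dv : Ωˣ → X →₀ ℤ) (cD : (X →₀ ℤ) → C)
    (a : (Ω ≃ₐ[k] Ω) → (Ω ≃ₐ[k] Ω) → Ωˣ) (b : (Ω ≃ₐ[k] Ω) → C) : Prop :=
  CoE A E N a ∧ ∃ D : (Ω ≃ₐ[k] Ω) → X →₀ ℤ, Lo1 N (A : Set Ω) D ∧ (∀ σ ∈ N, cD (D σ) = b σ) ∧
    ∀ σ ∈ N, ∀ τ ∈ N, dv (a σ τ) = D (σ * τ) - D σ - (D τ).mapDomain (xa σ)

/-- the carry of the addition in `ℤ/N₀` -/
def car (N₀ : ℕ) (j : (Ω ≃ₐ[k] Ω) → ℕ) (σ τ : Ω ≃ₐ[k] Ω) : ℕ := (j σ + j τ - j (σ * τ)) / N₀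

/-- `j` is a character of `N` with values in `ℤ/N₀`, represented by `0, …, N₀ - 1` -/
structure Chr (N : Subgroup (Ω ≃ₐ[k] Ω)) (N₀ : ℕ) (j : (Ω ≃ₐ[k] Ω) → ℕ) : Prop where
  lt : ∀ σ ∈ N, j σ < N₀
  add : ∀ σ ∈ N, ∀ τ ∈ N, j (σ * τ) ≡ j σ + j τ [MOD N₀]

end

end Pool.Agent.TIFC
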