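import Pool.Agent.TIFC.Defs
import Pool.Agent.TBM.Coh
import Pool.Agent.TBM.Br

/-!
# Operations on related cocycles
-/

set_option autoImplicit false

namespace Pool.Agent.TIFC

open Pool.Agent.TBR

universe u v w

section

variable {k Ω : Type u} [Field k] [Field Ω] [Algebra k Ω] {X : Type v} {C : Type w} [CommGroup C]
  {A E : IntermediateField k Ω} {N : Subgroup (Ω ≃ₐ[k] Ω)}
  {xa : (Ω ≃ₐ[k] Ω) → X → X} {ca : (Ω ≃ₐ[k] Ω) → C →* C} {dv : Ωˣ → X →₀ ℤ}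
  {cD : (X →₀ ℤ) → C}
  {a a' : (Ω ≃ₐ[k] Ω) → (Ω ≃ₐ[k] Ω) → Ωˣ} {b b' : (Ω ≃ₐ[k] Ω) → C}

theorem a1_lo1_map2 {D : Subgroup (Ω ≃ₐ[k] Ω)} {T : Set Ω} {M M' M'' : Type*}
    {f : (Ω ≃ₐ[k] Ω) → M} {g : (Ω ≃ₐ[k] Ω) → M'} (F : M → M' → M'') (hf : Lo1 D T f)
    (hg : Lo1 D T g) : Lo1 D T (fun σ => F (f σ) (g σ)) := by
  classical
  obtain ⟨S, h1, h2⟩ := hf
  obtain ⟨S', h1', h2'⟩ := hg
  refine ⟨S ∪ S', ?_, fun σ hσ τ hτ h => ?_⟩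
  · rw [Finset.coe_union]
    exact Set.union_subset h1 h1'
  · show F (f σ) (g σ) = F (f τ) (g τ)
    rw [Finset.coe_union] at h
    rw [h2 σ hσ τ hτ (h.mono Set.subset_union_left), h2' σ hσ τ hτ (h.mono Set.subset_union_right)]

theorem a1_lo2_map2 {D : Subgroup (Ω ≃ₐ[k] Ω)} {T : Set Ω} {M M' M'' : Type*}
    {f : (Ω ≃ₐ[k] Ω) → (Ω ≃ₐ[k] Ω) → M} {g : (Ω ≃ₐ[k] Ω) → (Ω ≃ₐ[k] Ω) → M'}
    (F : M → M' → M'') (hf : Lo2 D T f) (hg : Lo2 D T g) :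
    Lo2 D T (fun σ τ => F (f σ τ) (g σ τ)) := by
  classical
  obtain ⟨S, h1, h2⟩ := hf
  obtain ⟨S', h1', h2'⟩ := hg
  refine ⟨S ∪ S', ?_, fun σ hσ σ' hσ' τ hτ τ' hτ' h h' => ?_⟩
  · rw [Finset.coe_union]
    exact Set.union_subset h1 h1'
  · show F (f σ τ) (g σ τ) = F (f σ' τ') (g σ' τ')
    rw [Finset.coe_union] at h h'
    rw [h2 σ hσ σ' hσ' τ hτ τ' hτ' (h.mono Set.subset_union_left)
      (h'.mono Set.subset_union_left), h2' σ hσ σ' hσ' τ hτ τ' hτ'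
      (h.mono Set.subset_union_right) (h'.mono Set.subset_union_right)]

theorem a1_dv_one (hC : Cv A E N xa ca dv cD) : dv 1 = 0 :=
  (hC.dv_zero 1 (by rw [Units.val_one]; exact E.one_mem)).2 (by rw [Units.val_one]; exact A.one_mem)

theorem a1_inv_mem {e : Ωˣ} (he : (e : Ω) ∈ E) : ((e⁻¹ : Ωˣ) : Ω) ∈ E := by
  rw [Units.val_inv_eq_inv_val]
  exact E.inv_mem he

theorem a1_dv_inv (hC : Cv A E N xa ca dv cD) (e : Ωˣ) (he : (e : Ω) ∈ E) : dv e⁻¹ = - dv e := by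
  have h := hC.dv_mul e e⁻¹ he (a1_inv_mem he)
  rw [mul_inv_cancel, a1_dv_one hC] at h
  exact (neg_eq_of_add_eq_zero_right h.symm).symm

theorem a1_dv_pow (hC : Cv A E N xa ca dv cD) (e : Ωˣ) (he : (e : Ω) ∈ E) (n : ℕ) :
    dv (e ^ n) = n • dv e := by
  induction n with
  | zero => rw [pow_zero, zero_smul, a1_dv_one hC]
  | succ n ih =>
    rw [pow_succ, hC.dv_mul _ _ (by rw [Units.val_pow_eq_pow_val]; exact pow_mem he n) he, ih,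
      succ_nsmul]

theorem a1_cD_zero (hC : Cv A E N xa ca dv cD) : cD 0 = 1 :=
  (hC.cD_one 0).2 ⟨1, by rw [Units.val_one]; exact E.one_mem, a1_dv_one hC⟩

theorem a1_cD_neg (hC : Cv A E N xa ca dv cD) (D : X →₀ ℤ) : cD (-D) = (cD D)⁻¹ := by
  have h := hC.cD_add (-D) D
  rw [neg_add_cancel, a1_cD_zero hC] at h
  exact eq_inv_of_mul_eq_one_left h.symm

theorem a1_cD_nsmul (hC : Cv A E N xa ca dv cD) (D : X →₀ ℤ) (n : ℕ) : cD (n • D) = cD D ^ n := by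
  induction n with
  | zero => rw [zero_smul, pow_zero, a1_cD_zero hC]
  | succ n ih => rw [succ_nsmul, hC.cD_add, ih, pow_succ]

/-- All parts are elementary: the cochain `D` of the product is `D + D'`, of the inverse `-D`, of
the power `n • D`. Use `dv_mul` (with `E` closed under products and inverses), so
`dv (e⁻¹) = - dv e` (from `dv 1 = 0`: `dv_zero` for `1 ∈ A`), and `Finsupp.mapDomain_add`;
`cD 0 = 1`, `cD (-D) = (cD D)⁻¹` from `cD_add`. `Coc`: `Coc.mul`, `Coc.inv`, `Coc.pow` of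
`TBM/Base`. `Lo1`, `Lo2`: take the union of the finite sets. -/
theorem Rel.mul (hC : Cv A E N xa ca dv cD) (h : Rel A E N xa dv cD a b)
    (h' : Rel A E N xa dv cD a' b') :
    Rel A E N xa dv cD (fun σ τ => a σ τ * a' σ τ) (fun σ => b σ * b' σ) := by
  obtain ⟨hc, D, hl, hb, hd⟩ := h
  obtain ⟨hc', D', hl', hb', hd'⟩ := h'
  refine ⟨⟨a1_lo2_map2 (fun x y => x * y) hc.lc hc'.lc, fun σ hσ τ hτ => ?_, hc.coc.mul hc'.coc,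
    fun σ hσ => ?_⟩, fun σ => D σ + D' σ, a1_lo1_map2 (fun x y => x + y) hl hl',
    fun σ hσ => ?_, fun σ hσ τ hτ => ?_⟩
  · show ((a σ τ * a' σ τ : Ωˣ) : Ω) ∈ E
    rw [Units.val_mul]
    exact E.mul_mem (hc.mem σ hσ τ hτ) (hc'.mem σ hσ τ hτ)
  · show a 1 σ * a' 1 σ = 1 ∧ a σ 1 * a' σ 1 = 1
    rw [(hc.one σ hσ).1, (hc.one σ hσ).2, (hc'.one σ hσ).1, (hc'.one σ hσ).2, one_mul]
    exact ⟨rfl, rfl⟩
  · show cD (D σ + D' σ) = b σ * b' σ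
    rw [hC.cD_add, hb σ hσ, hb' σ hσ]
  · show dv (a σ τ * a' σ τ) = D (σ * τ) + D' (σ * τ) - (D σ + D' σ) -
      (D τ + D' τ).mapDomain (xa σ)
    rw [hC.dv_mul _ _ (hc.mem σ hσ τ hτ) (hc'.mem σ hσ τ hτ), hd σ hσ τ hτ, hd' σ hσ τ hτ,
      Finsupp.mapDomain_add]
    abel

theorem Rel.inv (hC : Cv A E N xa ca dv cD) (h : Rel A E N xa dv cD a b) :
    Rel A E N xa dv cD (fun σ τ => (a σ τ)⁻¹) (fun σ => (b σ)⁻¹) := by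
  obtain ⟨hc, D, hl, hb, hd⟩ := h
  refine ⟨⟨a1_lo2_map2 (fun x _ => x⁻¹) hc.lc hc.lc, fun σ hσ τ hτ => ?_, hc.coc.inv,
    fun σ hσ => ?_⟩, fun σ => - D σ, a1_lo1_map2 (fun x _ => - x) hl hl,
    fun σ hσ => ?_, fun σ hσ τ hτ => ?_⟩
  · exact a1_inv_mem (hc.mem σ hσ τ hτ)
  · show (a 1 σ)⁻¹ = 1 ∧ (a σ 1)⁻¹ = 1
    rw [(hc.one σ hσ).1, (hc.one σ hσ).2, inv_one]
    exact ⟨rfl, rfl⟩
  · show cD (- D σ) = (b σ)⁻¹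
    rw [a1_cD_neg hC, hb σ hσ]
  · show dv (a σ τ)⁻¹ = - D (σ * τ) - (- D σ) - (- D τ).mapDomain (xa σ)
    have h1 : (- D τ).mapDomain (xa σ) = - (D τ).mapDomain (xa σ) :=
      map_neg (Finsupp.mapDomain.addMonoidHom (xa σ)) (D τ)
    rw [a1_dv_inv hC _ (hc.mem σ hσ τ hτ), hd σ hσ τ hτ, h1]
    abel

theorem Rel.pow (hC : Cv A E N xa ca dv cD) (h : Rel A E N xa dv cD a b) (n : ℕ) :
    Rel A E N xa dv cD (fun σ τ => a σ τ ^ n) (fun σ => b σ ^ n) := by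
  obtain ⟨hc, D, hl, hb, hd⟩ := h
  refine ⟨⟨a1_lo2_map2 (fun x _ => x ^ n) hc.lc hc.lc, fun σ hσ τ hτ => ?_, hc.coc.pow n,
    fun σ hσ => ?_⟩, fun σ => n • D σ, a1_lo1_map2 (fun x _ => n • x) hl hl,
    fun σ hσ => ?_, fun σ hσ τ hτ => ?_⟩
  · show ((a σ τ ^ n : Ωˣ) : Ω) ∈ E
    rw [Units.val_pow_eq_pow_val]
    exact pow_mem (hc.mem σ hσ τ hτ) n
  · show a 1 σ ^ n = 1 ∧ a σ 1 ^ n = 1
    rw [(hc.one σ hσ).1, (hc.one σ hσ).2, one_pow]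
    exact ⟨rfl, rfl⟩
  · show cD (n • D σ) = b σ ^ n
    rw [a1_cD_nsmul hC, hb σ hσ]
  · show dv (a σ τ ^ n) = n • D (σ * τ) - n • D σ - (n • D τ).mapDomain (xa σ)
    have h1 : (n • D τ).mapDomain (xa σ) = n • (D τ).mapDomain (xa σ) :=
      map_nsmul (Finsupp.mapDomain.addMonoidHom (xa σ)) n (D τ)
    rw [a1_dv_pow hC _ (hc.mem σ hσ τ hτ), hd σ hσ τ hτ, h1, nsmul_sub, nsmul_sub]

theorem Rel.congr (h : Rel A E N xa dv cD a b) (ha : ∀ σ ∈ N, ∀ τ ∈ N, a σ τ = a' σ τ)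
    (hb : ∀ σ ∈ N, b σ = b' σ) : Rel A E N xa dv cD a' b' := by
  obtain ⟨⟨⟨S, hS, hl⟩, hm, hco, ho⟩, D, hD, hb', hd⟩ := h
  refine ⟨⟨⟨S, hS, fun σ hσ σ' hσ' τ hτ τ' hτ' h1 h2 => ?_⟩, fun σ hσ τ hτ => ?_,
    fun σ hσ τ hτ ρ hρ => ?_, fun σ hσ => ?_⟩, D, hD, fun σ hσ => ?_, fun σ hσ τ hτ => ?_⟩
  · rw [← ha σ hσ τ hτ, ← ha σ' hσ' τ' hτ']
    exact hl σ hσ σ' hσ' τ hτ τ' hτ' h1 h2
  · rw [← ha σ hσ τ hτ]
    exact hm σ hσ τ hτ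
  · rw [← ha σ hσ τ hτ, ← ha _ (N.mul_mem hσ hτ) ρ hρ, ← ha τ hτ ρ hρ,
      ← ha σ hσ _ (N.mul_mem hτ hρ)]
    exact hco σ hσ τ hτ ρ hρ
  · rw [← ha 1 N.one_mem σ hσ, ← ha σ hσ 1 N.one_mem]
    exact ho σ hσ
  · rw [← hb σ hσ]
    exact hb' σ hσ
  · rw [← ha σ hσ τ hτ]
    exact hd σ hσ τ hτ

theorem Cv.mono {N' : Subgroup (Ω ≃ₐ[k] Ω)} (hN : N ≤ N') (hC : Cv A E N' xa ca dv cD) :
    Cv A E N xa ca dv cD := by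
  exact ⟨hC.dv_mul, hC.dv_zero, hC.cD_add, hC.cD_one, hC.cD_sur, hC.xa_one,
    fun σ hσ τ hτ => hC.xa_mul σ (hN hσ) τ (hN hτ), fun σ hσ => hC.dv_act σ (hN hσ),
    fun σ hσ => hC.cD_act σ (hN hσ), fun x => by
      obtain ⟨S, h1, h2⟩ := hC.xa_lc x
      exact ⟨S, h1, fun σ hσ τ hτ => h2 σ (hN hσ) τ (hN hτ)⟩, hC.pl⟩

/-- conjugation. PROOF. New cochain `D' σ = (D (g⁻¹ * σ * g)).mapDomain (xa g)`. For `σ, τ ∈ N` put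
`σ' = g⁻¹ σ g`, `τ' = g⁻¹ τ g` (in `N` by `hn`), `σ' τ' = g⁻¹ (σ τ) g`. `dv_act` for `g`:
`dv (g • a σ' τ') = (dv (a σ' τ')).mapDomain (xa g)`, and
`((D τ').mapDomain (xa σ')).mapDomain (xa g) = ((D τ').mapDomain (xa g)).mapDomain (xa σ)` since
`xa g ∘ xa σ' = xa (g * σ') = xa (σ * g) = xa σ ∘ xa g` (`xa_mul` in `N'`). `cD_act` gives the
class. The finite sets: `S` is replaced by `g '' S ⊆ A`: if `σ` and `τ` agree on `g '' S`, then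
`g⁻¹ σ g` and `g⁻¹ τ g` agree on `S`. `Coc`: apply `g •` to the cocycle condition at
`σ', τ', ρ'` (`g • σ' • m = σ • g • m`). -/
theorem Rel.conj (N' : Subgroup (Ω ≃ₐ[k] Ω)) (hN : N ≤ N')
    (hn : ∀ g ∈ N', ∀ σ ∈ N, g⁻¹ * σ * g ∈ N) (hA : ∀ g ∈ N', ∀ x, g x ∈ A ↔ x ∈ A)
    (hE : ∀ g ∈ N', ∀ x ∈ E, g x ∈ E) (hC : Cv A E N' xa ca dv cD)
    (h : Rel A E N xa dv cD a b) (g : Ω ≃ₐ[k] Ω) (hg : g ∈ N') :
    Rel A E N xa dv cD (fun σ τ => g • a (g⁻¹ * σ * g) (g⁻¹ * τ * g))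
      (fun σ => ca g (b (g⁻¹ * σ * g))) := by
  classical
  obtain ⟨hc, D, ⟨S, hS, hl⟩, hb, hd⟩ := h
  have hag : ∀ (S : Finset Ω) (σ τ : Ω ≃ₐ[k] Ω), Ag ((S.image g : Finset Ω) : Set Ω) σ τ →
      Ag (S : Set Ω) (g⁻¹ * σ * g) (g⁻¹ * τ * g) := by
    intro S σ τ h x hx
    have h1 := h (g x) (by
      rw [Finset.coe_image]
      exact ⟨x, hx, rfl⟩)
    show g⁻¹ (σ (g x)) = g⁻¹ (τ (g x))
    rw [h1]
  have hsub : ∀ S : Finset Ω, (S : Set Ω) ⊆ A → ((S.image g : Finset Ω) : Set Ω) ⊆ A := by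
    intro S hS x hx
    rw [Finset.coe_image] at hx
    obtain ⟨y, hy, rfl⟩ := hx
    exact (hA g hg y).2 (hS hy)
  have hmul : ∀ σ τ : Ω ≃ₐ[k] Ω, g⁻¹ * σ * g * (g⁻¹ * τ * g) = g⁻¹ * (σ * τ) * g := by
    intro σ τ; group
  have hgs : ∀ σ : Ω ≃ₐ[k] Ω, g * (g⁻¹ * σ * g) = σ * g := by
    intro σ; group
  refine ⟨⟨?_, fun σ hσ τ hτ => ?_, fun σ hσ τ hτ ρ hρ => ?_, fun σ hσ => ?_⟩,
    fun σ => (D (g⁻¹ * σ * g)).mapDomain (xa g), ⟨S.image g, hsub S hS, fun σ hσ τ hτ h => ?_⟩,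
    fun σ hσ => ?_, fun σ hσ τ hτ => ?_⟩
  · obtain ⟨T, hT, hlT⟩ := hc.lc
    refine ⟨T.image g, hsub T hT, fun σ hσ σ' hσ' τ hτ τ' hτ' h h' => ?_⟩
    show g • a (g⁻¹ * σ * g) (g⁻¹ * τ * g) = g • a (g⁻¹ * σ' * g) (g⁻¹ * τ' * g)
    rw [hlT _ (hn g hg σ hσ) _ (hn g hg σ' hσ') _ (hn g hg τ hτ) _ (hn g hg τ' hτ')
      (hag T _ _ h) (hag T _ _ h')]
  · exact hE g hg _ (hc.mem _ (hn g hg σ hσ) _ (hn g hg τ hτ))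
  · show g • a (g⁻¹ * σ * g) (g⁻¹ * τ * g) * g • a (g⁻¹ * (σ * τ) * g) (g⁻¹ * ρ * g) =
      σ • (g • a (g⁻¹ * τ * g) (g⁻¹ * ρ * g)) * g • a (g⁻¹ * σ * g) (g⁻¹ * (τ * ρ) * g)
    rw [← hmul σ τ, ← hmul τ ρ, ← smul_mul', hc.coc _ (hn g hg σ hσ) _ (hn g hg τ hτ) _
      (hn g hg ρ hρ), smul_mul', smul_smul, smul_smul, hgs]
  · show g • a (g⁻¹ * 1 * g) (g⁻¹ * σ * g) = 1 ∧ g • a (g⁻¹ * σ * g) (g⁻¹ * 1 * g) = 1
    rw [mul_one, inv_mul_cancel, (hc.one _ (hn g hg σ hσ)).1, (hc.one _ (hn g hg σ hσ)).2,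
      smul_one]
    exact ⟨rfl, rfl⟩
  · show (D (g⁻¹ * σ * g)).mapDomain (xa g) = (D (g⁻¹ * τ * g)).mapDomain (xa g)
    rw [hl _ (hn g hg σ hσ) _ (hn g hg τ hτ) (hag S _ _ h)]
  · show cD ((D (g⁻¹ * σ * g)).mapDomain (xa g)) = ca g (b (g⁻¹ * σ * g))
    rw [hC.cD_act g hg, hb _ (hn g hg σ hσ)]
  · show dv (g • a (g⁻¹ * σ * g) (g⁻¹ * τ * g)) = (D (g⁻¹ * (σ * τ) * g)).mapDomain (xa g) -
      (D (g⁻¹ * σ * g)).mapDomain (xa g) -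
      ((D (g⁻¹ * τ * g)).mapDomain (xa g)).mapDomain (xa σ)
    have h1 : ∀ u v : X →₀ ℤ, (u - v).mapDomain (xa g) = u.mapDomain (xa g) - v.mapDomain (xa g) :=
      fun u v => map_sub (Finsupp.mapDomain.addMonoidHom (xa g)) u v
    have h2 : xa g ∘ xa (g⁻¹ * σ * g) = xa σ ∘ xa g := by
      funext x
      show xa g (xa (g⁻¹ * σ * g) x) = xa σ (xa g x)
      rw [← hC.xa_mul g hg _ (hN (hn g hg σ hσ)), hgs, hC.xa_mul σ (hN hσ) g hg]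
    rw [hC.dv_act g hg _ (hc.mem _ (hn g hg σ hσ) _ (hn g hg τ hτ)),
      hd _ (hn g hg σ hσ) _ (hn g hg τ hτ), h1, h1, hmul, ← Finsupp.mapDomain_comp,
      ← Finsupp.mapDomain_comp, h2]

end

end Pool.Agent.TIFC
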