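import Pool.Agent.TIFC.LO

/-!
# Characters with values in `ℤ/N₀` and their carries
-/

set_option autoImplicit false

namespace Pool.Agent.TIFC

open Pool.Agent.TBR

universe u v w

section

variable {k Ω : Type u} [Field k] [Field Ω] [Algebra k Ω]
  {A E : IntermediateField k Ω} {N : Subgroup (Ω ≃ₐ[k] Ω)} {N₀ : ℕ} {j : (Ω ≃ₐ[k] Ω) → ℕ}

theorem Chr.eq_mod (h : Chr N N₀ j) {σ τ : Ω ≃ₐ[k] Ω} (hσ : σ ∈ N) (hτ : τ ∈ N) :
    j (σ * τ) = (j σ + j τ) % N₀ := by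
  have h1 := h.add σ hσ τ hτ
  have h2 := h.lt _ (N.mul_mem hσ hτ)
  rw [Nat.ModEq, Nat.mod_eq_of_lt h2] at h1
  exact h1

theorem Chr.mul_car (h : Chr N N₀ j) {σ τ : Ω ≃ₐ[k] Ω} (hσ : σ ∈ N) (hτ : τ ∈ N) :
    N₀ * car N₀ j σ τ + j (σ * τ) = j σ + j τ := by
  have h1 := h.eq_mod hσ hτ
  have h2 : N₀ ∣ j σ + j τ - j (σ * τ) := by
    rw [h1]
    exact Nat.dvd_sub_mod _
  unfold car
  rw [Nat.mul_div_cancel' h2, h1]
  exact Nat.sub_add_cancel (Nat.mod_le _ _)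

theorem Chr.one (h : Chr N N₀ j) : j 1 = 0 := by
  have h1 := h.eq_mod N.one_mem N.one_mem
  have h2 := h.lt 1 N.one_mem
  rw [mul_one] at h1
  by_contra h3
  rcases lt_or_ge (j 1 + j 1) N₀ with h4 | h4
  · rw [Nat.mod_eq_of_lt h4] at h1
    omega
  · rw [Nat.mod_eq_sub_mod h4, Nat.mod_eq_of_lt (by omega)] at h1
    omega

theorem Chr.car_one (h : Chr N N₀ j) {σ : Ω ≃ₐ[k] Ω} (hσ : σ ∈ N) :
    car N₀ j 1 σ = 0 ∧ car N₀ j σ 1 = 0 := by
  have h2 := h.lt 1 N.one_mem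
  have h0 : 0 < N₀ := by omega
  have h3 := h.mul_car N.one_mem hσ
  have h4 := h.mul_car hσ N.one_mem
  rw [one_mul, h.one] at h3
  rw [mul_one, h.one] at h4
  constructor
  · have h5 : N₀ * car N₀ j 1 σ = 0 := by omega
    exact (Nat.mul_eq_zero.1 h5).resolve_left h0.ne'
  · have h5 : N₀ * car N₀ j σ 1 = 0 := by omega
    exact (Nat.mul_eq_zero.1 h5).resolve_left h0.ne'

theorem Chr.car_coc (h : Chr N N₀ j) {σ τ ρ : Ω ≃ₐ[k] Ω} (hσ : σ ∈ N) (hτ : τ ∈ N) (hρ : ρ ∈ N) :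
    car N₀ j σ τ + car N₀ j (σ * τ) ρ = car N₀ j τ ρ + car N₀ j σ (τ * ρ) := by
  have h2 := h.lt 1 N.one_mem
  have h0 : 0 < N₀ := by omega
  have e1 := h.mul_car hσ hτ
  have e2 := h.mul_car (N.mul_mem hσ hτ) hρ
  have e3 := h.mul_car hτ hρ
  have e4 := h.mul_car hσ (N.mul_mem hτ hρ)
  rw [mul_assoc] at e2
  refine Nat.eq_of_mul_eq_mul_left h0 ?_
  rw [Nat.mul_add, Nat.mul_add]
  omega

/-- the carry depends only on restrictions to a finite subset of `T`, if `T` is stable -/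
theorem lo2_car (hS : Sit A E N) (hj : Lo1 N (A : Set Ω) j) :
    Lo2 N (A : Set Ω) (fun σ τ => car N₀ j σ τ) := by
  classical
  obtain ⟨S, hSA, hSj⟩ := hj
  obtain ⟨R, hSR, hRA, hR⟩ := exists_stable N (A : Set Ω)
    (fun σ hσ y hy => (hS.stab σ hσ y).2 hy) (hS.orb.mono le_rfl (Set.subset_univ _)) S hSA
  have h1 : (S : Set Ω) ⊆ R := fun z hz => hSR hz
  refine ⟨R, hRA, ?_⟩
  intro σ hσ σ' hσ' τ hτ τ' hτ' h h'
  have e1 : j σ = j σ' := hSj σ hσ σ' hσ' (h.mono h1)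
  have e2 : j τ = j τ' := hSj τ hτ τ' hτ' (h'.mono h1)
  have e3 : j (σ * τ) = j (σ' * τ') := by
    refine hSj _ (N.mul_mem hσ hτ) _ (N.mul_mem hσ' hτ') (Ag.mono h1 ?_)
    exact h.mul h' fun x hx => hR τ hτ x hx
  show (j σ + j τ - j (σ * τ)) / N₀ = (j σ' + j τ' - j (σ' * τ')) / N₀
  rw [e1, e2, e3]

/-- the cochain `∏ f i ^ car (j i)` is a cocycle -/
theorem coE_car (hS : Sit A E N) {m : ℕ} (f : Fin m → Ωˣ) (hf : ∀ i, (f i : Ω) ∈ E)
    (hfN : ∀ i, ∀ σ ∈ N, σ • f i = f i) (j : Fin m → (Ω ≃ₐ[k] Ω) → ℕ)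
    (hj : ∀ i, Chr N N₀ (j i)) (hj' : ∀ i, Lo1 N (A : Set Ω) (j i)) :
    CoE A E N (fun σ τ => ∏ i, f i ^ car N₀ (j i) σ τ) := by
  classical
  refine ⟨?_, ?_, ?_, ?_⟩
  · have h1 := fun i => lo2_car (N₀ := N₀) hS (hj' i)
    choose S hS1 hS2 using h1
    refine ⟨Finset.univ.biUnion S, ?_, ?_⟩
    · intro x hx
      simp only [Finset.coe_biUnion, Set.mem_iUnion, Finset.mem_coe] at hx
      obtain ⟨i, -, hx⟩ := hx
      exact hS1 i hx
    · intro σ hσ σ' hσ' τ hτ τ' hτ' h h'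
      refine Finset.prod_congr rfl fun i _ => ?_
      have e : (S i : Set Ω) ⊆ (Finset.univ.biUnion S : Finset Ω) := by
        intro x hx
        rw [Finset.mem_coe, Finset.mem_biUnion]
        exact ⟨i, Finset.mem_univ _, hx⟩
      rw [show car N₀ (j i) σ τ = car N₀ (j i) σ' τ' from
        hS2 i σ hσ σ' hσ' τ hτ τ' hτ' (h.mono e) (h'.mono e)]
  · intro σ _ τ _
    have h1 : ∀ s : Finset (Fin m), ((∏ i ∈ s, f i ^ car N₀ (j i) σ τ : Ωˣ) : Ω) ∈ E := by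
      intro s
      induction s using Finset.induction_on with
      | empty => rw [Finset.prod_empty, Units.val_one]; exact E.one_mem
      | insert i s hi ih =>
        rw [Finset.prod_insert hi, Units.val_mul, Units.val_pow_eq_pow_val]
        exact E.mul_mem (pow_mem (hf i) _) ih
    exact h1 _
  · intro σ hσ τ hτ ρ hρ
    have e1 : σ • (∏ i, f i ^ car N₀ (j i) τ ρ) = ∏ i, f i ^ car N₀ (j i) τ ρ := by
      rw [Finset.smul_prod']
      refine Finset.prod_congr rfl fun i _ => ?_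
      rw [smul_pow', hfN i σ hσ]
    show (∏ i, f i ^ car N₀ (j i) σ τ) * ∏ i, f i ^ car N₀ (j i) (σ * τ) ρ =
      σ • (∏ i, f i ^ car N₀ (j i) τ ρ) * ∏ i, f i ^ car N₀ (j i) σ (τ * ρ)
    rw [e1, ← Finset.prod_mul_distrib, ← Finset.prod_mul_distrib]
    refine Finset.prod_congr rfl fun i _ => ?_
    rw [← pow_add, ← pow_add, (hj i).car_coc hσ hτ hρ]
  · intro σ hσ
    constructor
    · refine Finset.prod_eq_one fun i _ => ?_
      rw [((hj i).car_one hσ).1, pow_zero]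
    · refine Finset.prod_eq_one fun i _ => ?_
      rw [((hj i).car_one hσ).2, pow_zero]

end

end Pool.Agent.TIFC
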